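import Pool.Agent.H70.FT.Angle

/-!
Moving two unit vectors to a standard position; conjugation of a group.
-/

namespace Pool.Agent.H70.FT

open Matrix Pool.Agent.H38.FT

/-- The matrix with columns `a`, `b` and the cross product of `a` and `b`. -/
def fr (a b : Fin 3 → ℝ) : Mat :=
  !![a 0, b 0, a 1 * b 2 - a 2 * b 1;
     a 1, b 1, a 2 * b 0 - a 0 * b 2;
     a 2, b 2, a 0 * b 1 - a 1 * b 0]

theorem fr00 (a b : Fin 3 → ℝ) : fr a b 0 0 = a 0 := rfl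
theorem fr01 (a b : Fin 3 → ℝ) : fr a b 0 1 = b 0 := rfl
theorem fr02 (a b : Fin 3 → ℝ) : fr a b 0 2 = a 1 * b 2 - a 2 * b 1 := rfl
theorem fr10 (a b : Fin 3 → ℝ) : fr a b 1 0 = a 1 := rfl
theorem fr11 (a b : Fin 3 → ℝ) : fr a b 1 1 = b 1 := rfl
theorem fr12 (a b : Fin 3 → ℝ) : fr a b 1 2 = a 2 * b 0 - a 0 * b 2 := rfl
theorem fr20 (a b : Fin 3 → ℝ) : fr a b 2 0 = a 2 := rfl
theorem fr21 (a b : Fin 3 → ℝ) : fr a b 2 1 = b 2 := rfl
theorem fr22 (a b : Fin 3 → ℝ) : fr a b 2 2 = a 0 * b 1 - a 1 * b 0 := rfl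

theorem fr_gram (a b : Fin 3 → ℝ) :
    (fr a b)ᵀ * fr a b = !![dt a a, dt a b, 0; dt a b, dt b b, 0;
      0, 0, dt a a * dt b b - dt a b ^ 2] := by
  apply ext9 <;> simp only [mm0, Matrix.transpose_apply, fr00, fr01, fr02, fr10, fr11, fr12, fr20,
    fr21, fr22] <;> simp [dt] <;> ring

theorem fr_det (a b : Fin 3 → ℝ) : (fr a b).det = dt a a * dt b b - dt a b ^ 2 := by
  rw [Matrix.det_fin_three]
  simp only [fr00, fr01, fr02, fr10, fr11, fr12, fr20, fr21, fr22, dt]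
  ring

theorem frame {a b a0 b0 : Fin 3 → ℝ} (ha : dt a a = 1) (hb : dt b b = 1) (ha0 : dt a0 a0 = 1)
    (hb0 : dt b0 b0 = 1) (h : dt a0 b0 = dt a b) (h1 : dt a b ^ 2 ≠ 1) :
    ∃ U : Mat, Uᵀ * U = 1 ∧ U *ᵥ a0 = a ∧ U *ᵥ b0 = b := by
  have hd0 : IsUnit (fr a0 b0).det := by
    rw [fr_det, ha0, hb0, h]
    apply isUnit_iff_ne_zero.mpr
    intro h0
    apply h1
    linarith
  have hQ : fr a0 b0 * (fr a0 b0)⁻¹ = 1 := Matrix.mul_nonsing_inv _ hd0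
  have hQ' : (fr a0 b0)⁻¹ * fr a0 b0 = 1 := Matrix.nonsing_inv_mul _ hd0
  have hgram : (fr a b)ᵀ * fr a b = (fr a0 b0)ᵀ * fr a0 b0 := by
    rw [fr_gram, fr_gram, ha, hb, ha0, hb0, h]
  set Q := fr a0 b0 with hQd
  set P := fr a b with hPd
  have hUQ : (P * Q⁻¹) * Q = P := by rw [mul_assoc, hQ', mul_one]
  have hUU : (P * Q⁻¹)ᵀ * (P * Q⁻¹) = 1 := by
    calc (P * Q⁻¹)ᵀ * (P * Q⁻¹) = (Q⁻¹)ᵀ * (Pᵀ * P) * Q⁻¹ := by
          rw [Matrix.transpose_mul]; simp only [mul_assoc]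
      _ = (Q⁻¹)ᵀ * (Qᵀ * Q) * Q⁻¹ := by rw [hgram]
      _ = (Q * Q⁻¹)ᵀ * (Q * Q⁻¹) := by rw [Matrix.transpose_mul]; simp only [mul_assoc]
      _ = 1 := by rw [hQ, Matrix.transpose_one, one_mul]
  have hcol0 : ∀ u v : Fin 3 → ℝ, fr u v *ᵥ ![1, 0, 0] = u := by
    intro u v
    apply ext3 <;> simp [mv0, fr00, fr01, fr02, fr10, fr11, fr12, fr20, fr21, fr22]
  have hcol1 : ∀ u v : Fin 3 → ℝ, fr u v *ᵥ ![0, 1, 0] = v := by
    intro u v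
    apply ext3 <;> simp [mv0, fr00, fr01, fr02, fr10, fr11, fr12, fr20, fr21, fr22]
  refine ⟨P * Q⁻¹, hUU, ?_, ?_⟩
  · rw [← hcol0 a0 b0, Matrix.mulVec_mulVec, ← hQd, hUQ, hcol0]
  · rw [← hcol1 a0 b0, Matrix.mulVec_mulVec, ← hQd, hUQ, hcol1]

/-- The conjugate group. -/
def cj (G : Set Mat) (U : Mat) : Set Mat := {N | U * N * Uᵀ ∈ G}

variable {G : Set Mat} {U : Mat}

theorem cj_iff (hU : Uᵀ * U = 1) (M : Mat) : M ∈ G ↔ Uᵀ * M * U ∈ cj G U := by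
  have hU' : U * Uᵀ = 1 := mul_eq_one_comm.mp hU
  have : U * (Uᵀ * M * U) * Uᵀ = M := by
    calc U * (Uᵀ * M * U) * Uᵀ = (U * Uᵀ) * M * (U * Uᵀ) := by simp only [mul_assoc]
      _ = M := by rw [hU', one_mul, mul_one]
  unfold cj
  rw [Set.mem_setOf_eq, this]

theorem cj_fin (hG : IsFinGroup G) (hU : Uᵀ * U = 1) : IsFinGroup (cj G U) := by
  have hU' : U * Uᵀ = 1 := mul_eq_one_comm.mp hU
  have hinj : ∀ A B : Mat, U * A * Uᵀ = U * B * Uᵀ → A = B := by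
    intro A B h
    calc A = (Uᵀ * U) * A * (Uᵀ * U) := by rw [hU, one_mul, mul_one]
      _ = Uᵀ * (U * A * Uᵀ) * U := by simp only [mul_assoc]
      _ = Uᵀ * (U * B * Uᵀ) * U := by rw [h]
      _ = (Uᵀ * U) * B * (Uᵀ * U) := by simp only [mul_assoc]
      _ = B := by rw [hU, one_mul, mul_one]
  constructor
  · exact Set.Finite.preimage (fun A _ B _ h => hinj A B h) hG.fin
  · show U * 1 * Uᵀ ∈ G
    rw [mul_one, hU']
    exact hG.one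
  · intro A hA B hB
    show U * (A * B) * Uᵀ ∈ G
    have : U * (A * B) * Uᵀ = (U * A * Uᵀ) * (U * B * Uᵀ) := by
      calc U * (A * B) * Uᵀ = U * A * 1 * B * Uᵀ := by simp only [mul_assoc, one_mul]
        _ = U * A * (Uᵀ * U) * B * Uᵀ := by rw [hU]
        _ = _ := by simp only [mul_assoc]
    rw [this]
    exact hG.mul _ hA _ hB
  · intro A hA
    have h1 := hG.orth _ hA
    have h2 : (U * A * Uᵀ)ᵀ * (U * A * Uᵀ) = U * (Aᵀ * A) * Uᵀ := by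
      calc (U * A * Uᵀ)ᵀ * (U * A * Uᵀ) = U * Aᵀ * (Uᵀ * U) * A * Uᵀ := by
            rw [Matrix.transpose_mul, Matrix.transpose_mul, Matrix.transpose_transpose]
            simp only [mul_assoc]
        _ = _ := by rw [hU]; simp only [mul_assoc, mul_one, one_mul]
    apply hinj
    rw [← h2, h1, mul_one, hU']
  · intro A hA
    have h1 := hG.tr _ hA
    rw [Matrix.transpose_mul, Matrix.transpose_mul, Matrix.transpose_transpose] at h1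
    show U * Aᵀ * Uᵀ ∈ G
    rwa [mul_assoc]

theorem cj_irr (hU : Uᵀ * U = 1)
    (hirr : ∀ a : Fin 3 → ℝ, a ≠ 0 → ∃ A ∈ G, A *ᵥ a ≠ a ∧ A *ᵥ a ≠ -a) :
    ∀ a : Fin 3 → ℝ, a ≠ 0 → ∃ A ∈ cj G U, A *ᵥ a ≠ a ∧ A *ᵥ a ≠ -a := by
  have hU' : U * Uᵀ = 1 := mul_eq_one_comm.mp hU
  intro a ha
  have hne : U *ᵥ a ≠ 0 := by
    intro h
    apply ha
    have : Uᵀ *ᵥ (U *ᵥ a) = 0 := by rw [h, Matrix.mulVec_zero]
    rwa [Matrix.mulVec_mulVec, hU, Matrix.one_mulVec] at this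
  obtain ⟨A, hA, h1, h2⟩ := hirr _ hne
  have key : U *ᵥ ((Uᵀ * A * U) *ᵥ a) = A *ᵥ (U *ᵥ a) := by
    rw [Matrix.mulVec_mulVec, Matrix.mulVec_mulVec, ← mul_assoc, ← mul_assoc, hU', one_mul]
  refine ⟨Uᵀ * A * U, (cj_iff hU A).mp hA, ?_, ?_⟩
  · intro h
    apply h1
    rw [← key, h]
  · intro h
    apply h2
    rw [← key, h, Matrix.mulVec_neg]

theorem cj_dat {x s : ℝ} (hD : Dat G x s) (hU : Uᵀ * U = 1) : Dat (cj G U) x s := by
  have hU' : U * Uᵀ = 1 := mul_eq_one_comm.mp hU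
  refine ⟨hD.hs, hD.s0, hD.x1, ?_⟩
  intro R hR hd hne
  have h1 : (U * R * Uᵀ).det = 1 := by
    rw [Matrix.det_mul, Matrix.det_mul, hd, Matrix.det_transpose, mul_one]
    exact det_sq hU
  have h2 : (U * R * Uᵀ).trace = R.trace := by
    rw [Matrix.trace_mul_comm, ← mul_assoc, hU, one_mul]
  rw [← h2]
  apply hD.max _ hR h1
  intro h
  apply hne
  calc R = (Uᵀ * U) * R * (Uᵀ * U) := by rw [hU, one_mul, mul_one]
    _ = Uᵀ * (U * R * Uᵀ) * U := by simp only [mul_assoc]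
    _ = 1 := by rw [h, mul_one, hU]

theorem cj_pole {x s : ℝ} (hG : IsFinGroup G) (hU : Uᵀ * U = 1) {v : Fin 3 → ℝ}
    (h : Pole G x s (U *ᵥ v)) : Pole (cj G U) x s v := by
  have h1 : dt v v = 1 := by rw [← dt_mul hU, h.1]
  refine ⟨h1, ?_⟩
  show U * rot v x s * Uᵀ ∈ G
  rw [rot_conj hU]
  rcases mul_self_eq_one_iff.mp (det_sq hU) with hd | hd
  · rw [hd, one_mul]
    exact h.2
  · rw [hd, neg_one_mul]
    exact h.inv hG

end Pool.Agent.H70.FT
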