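import Pool.Agent.H70.FT.IcoG
import Pool.Agent.H70.FT.Frame

/-!
The case where the rotations of smallest angle have order five.
-/

namespace Pool.Agent.H70.FT

open Matrix Pool.Agent.H38.FT

variable {G : Set Mat} {s k : ℝ}

theorem rot_pt (hk : (gr + 2) * k ^ 2 = 1) (hks : s * k = 1 / 2) (v : Fin 3 → ℝ) :
    rot (k • v) ((gr - 1) / 2) s =
      !![(gr - 1) / 2 + (1 - gr / 2) * v 0 * v 0, (1 - gr / 2) * v 0 * v 1 - 1 / 2 * v 2,
          (1 - gr / 2) * v 0 * v 2 + 1 / 2 * v 1;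
        (1 - gr / 2) * v 1 * v 0 + 1 / 2 * v 2, (gr - 1) / 2 + (1 - gr / 2) * v 1 * v 1,
          (1 - gr / 2) * v 1 * v 2 - 1 / 2 * v 0;
        (1 - gr / 2) * v 2 * v 0 - 1 / 2 * v 1, (1 - gr / 2) * v 2 * v 1 + 1 / 2 * v 0,
          (gr - 1) / 2 + (1 - gr / 2) * v 2 * v 2] := by
  have h := gr_sq
  have hA : (1 - (gr - 1) / 2) * k ^ 2 = 1 - gr / 2 := by
    have h1 : (gr + 2) * ((1 - (gr - 1) / 2) * k ^ 2 - (1 - gr / 2)) = 0 := by
      linear_combination (1 - (gr - 1) / 2) * hk + (1 / 2) * h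
    rcases mul_eq_zero.mp h1 with h2 | h2
    · have : 0 < gr := Real.goldenRatio_pos
      linarith
    · linarith
  apply ext9 <;> simp only [rot00, rot01, rot02, rot10, rot11, rot12, rot20, rot21, rot22,
    Pi.smul_apply, smul_eq_mul] <;> simp
  · linear_combination (v 0 * v 0) * hA
  · linear_combination (v 0 * v 1) * hA - v 2 * hks
  · linear_combination (v 0 * v 2) * hA + v 1 * hks
  · linear_combination (v 0 * v 1) * hA + v 2 * hks
  · linear_combination (v 1 * v 1) * hA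
  · linear_combination (v 1 * v 2) * hA - v 0 * hks
  · linear_combination (v 0 * v 2) * hA - v 1 * hks
  · linear_combination (v 1 * v 2) * hA + v 0 * hks
  · linear_combination (v 2 * v 2) * hA

theorem six_sum (v : Fin 3 → ℝ) :
    dt (pt12 0) v ^ 2 + dt (pt12 1) v ^ 2 + dt (pt12 2) v ^ 2 + dt (pt12 3) v ^ 2 +
      dt (pt12 5) v ^ 2 + dt (pt12 8) v ^ 2 = 2 * (gr + 2) * dt v v := by
  simp only [dt]
  rw [p0.1, p0.2.1, p0.2.2, p1.1, p1.2.1, p1.2.2, p2.1, p2.2.1, p2.2.2, p3.1, p3.2.1, p3.2.2,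
    p5.1, p5.2.1, p5.2.2, p8.1, p8.2.1, p8.2.2]
  linear_combination (2 * (v 0 * v 0 + v 1 * v 1 + v 2 * v 2)) * gr_sq

theorem case_gold (hG : IsFinGroup G) (hD : Dat G ((gr - 1) / 2) s) (hk : (gr + 2) * k ^ 2 = 1)
    (hks : s * k = 1 / 2) (h0 : Pole G ((gr - 1) / 2) s (k • pt12 0))
    (h1 : Pole G ((gr - 1) / 2) s (k • pt12 1)) : ∃ t : Tag, ∀ M : Mat, M ∈ G ↔ M ∈ t.group := by
  have hgr := gr_sq
  have hgp : 0 < gr := Real.goldenRatio_pos
  have hg1 : 1 < gr := Real.one_lt_goldenRatio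
  have hk0 : k ≠ 0 := by
    intro h
    rw [h] at hk
    norm_num at hk
  have hx0 : 0 < (gr - 1) / 2 := by linarith
  have hx : 4 * ((gr - 1) / 2) ^ 2 + 2 * ((gr - 1) / 2) - 1 = 0 := by linear_combination hgr
  have hsq : ∀ v w, Pole G ((gr - 1) / 2) s v → Pole G ((gr - 1) / 2) s w → w ≠ v → w ≠ -v →
      5 * dt v w ^ 2 = 1 := by
    have h5 : (1 + 4 * ((gr - 1) / 2)) ^ 2 = 5 := by linear_combination 4 * hgr
    have key : ∀ t : ℝ, (1 + 4 * ((gr - 1) / 2)) * t = 1 → 5 * t ^ 2 = 1 := by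
      intro t ht
      calc 5 * t ^ 2 = ((1 + 4 * ((gr - 1) / 2)) * t) ^ 2 := by rw [mul_pow, h5]
        _ = 1 := by rw [ht]; norm_num
    intro v w hv hw c1 c2
    rcases le_total 0 (dt v w) with h | h
    · exact key _ (ang_gold hG hD hx0 hx hv hw c1 c2 h)
    · have := key _ (ang_gold hG hD hx0 hx hv (hw.neg hG) (fun e => c2 (by rw [← e, neg_neg]))
        (fun e => c1 (neg_injective e)) (by rw [dt_neg_right]; linarith))
      rw [dt_neg_right] at this
      linarith
  have r0 : rot (k • pt12 0) ((gr - 1) / 2) s = gen .p := by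
    rw [rot_pt hk hks, p0.1, p0.2.1, p0.2.2]
    apply ext9 <;> simp [gen] <;>
      first
        | ring1
        | linear_combination (1 / 4 : ℝ) * hgr
        | linear_combination (-1 / 4 : ℝ) * hgr
        | linear_combination (1 / 2 : ℝ) * hgr
        | linear_combination (-1 / 2 : ℝ) * hgr
        | linear_combination (1 / 2 - 1 / 2 * gr : ℝ) * hgr
  have hp : gen .p ∈ G := by rw [← r0]; exact h0.2
  have act : ∀ l : Letter, l ≠ .q ∧ l ≠ .s → gen l ∈ G → ∀ i,
      Pole G ((gr - 1) / 2) s (k • pt12 i) → Pole G ((gr - 1) / 2) s (k • pt12 (act12 l i)) := by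
    intro l hl hlG i hi
    have := hi.map hG hlG
    rwa [Matrix.mulVec_smul, gen_pt12 l hl] at this
  have h2 : Pole G ((gr - 1) / 2) s (k • pt12 2) := act .p (by decide) hp 1 h1
  have h3 : Pole G ((gr - 1) / 2) s (k • pt12 3) := act .p (by decide) hp 2 h2
  have h8 : Pole G ((gr - 1) / 2) s (k • pt12 8) := act .p (by decide) hp 3 h3
  have h5 : Pole G ((gr - 1) / 2) s (k • pt12 5) := act .p (by decide) hp 8 h8
  have h7 : Pole G ((gr - 1) / 2) s (k • pt12 7) := by
    have := h5.neg hG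
    rw [← smul_neg, ← pt12_opp] at this
    exact this
  have r2 : rot (k • pt12 2) ((gr - 1) / 2) s = E2 := by
    rw [rot_pt hk hks, p2.1, p2.2.1, p2.2.2]
    apply ext9 <;> simp [E2] <;>
      first
        | ring1
        | linear_combination (1 / 4 : ℝ) * hgr
        | linear_combination (-1 / 4 : ℝ) * hgr
        | linear_combination (1 / 2 : ℝ) * hgr
        | linear_combination (-1 / 2 : ℝ) * hgr
        | linear_combination (1 / 2 - 1 / 2 * gr : ℝ) * hgr
  have r7 : rot (k • pt12 7) ((gr - 1) / 2) s = E7 := by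
    rw [rot_pt hk hks, p7.1, p7.2.1, p7.2.2]
    apply ext9 <;> simp [E7] <;>
      first
        | ring1
        | linear_combination (1 / 4 : ℝ) * hgr
        | linear_combination (-1 / 4 : ℝ) * hgr
        | linear_combination (1 / 2 : ℝ) * hgr
        | linear_combination (-1 / 2 : ℝ) * hgr
        | linear_combination (1 / 2 - 1 / 2 * gr : ℝ) * hgr
  have hc : gen .c ∈ G := by
    rw [c_eq, ← r2]
    exact hG.mul _ hp _ h2.2
  have hd : gen .d ∈ G := by
    rw [d_eq, ← r2, ← r7]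
    exact hG.mul _ h7.2 _ (hG.mul _ h2.2 _ h7.2)
  have hpole : ∀ v, Pole G ((gr - 1) / 2) s v → ∃ i, v = k • pt12 i := by
    intro v hv
    by_contra hcon
    push_neg at hcon
    have hdt : ∀ i, dt (k • pt12 i) v = k * dt (pt12 i) v := by
      intro i
      simp only [dt, Pi.smul_apply, smul_eq_mul]
      ring
    have key : ∀ i, Pole G ((gr - 1) / 2) s (k • pt12 i) →
        5 * (k ^ 2 * dt (pt12 i) v ^ 2) = 1 := by
      intro i hi
      have := hsq _ _ hi hv (hcon i) (by rw [← smul_neg, ← pt12_opp]; exact hcon _)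
      rw [hdt] at this
      linarith
    have a0 := key 0 h0
    have a1 := key 1 h1
    have a2 := key 2 h2
    have a3 := key 3 h3
    have a5 := key 5 h5
    have a8 := key 8 h8
    have hsum := six_sum v
    rw [hv.1] at hsum
    have : 5 * (k ^ 2 * (2 * (gr + 2) * 1)) = 6 := by
      rw [← hsum]
      linear_combination a0 + a1 + a2 + a3 + a5 + a8
    have h10 : 5 * (k ^ 2 * (2 * (gr + 2) * 1)) = 10 := by linear_combination 10 * hk
    linarith
  have img : ∀ M ∈ G, ∀ i, Pole G ((gr - 1) / 2) s (k • pt12 i) → ∃ j, M *ᵥ pt12 i = pt12 j := by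
    intro M hM i hi
    obtain ⟨j, hj⟩ := hpole _ (hi.map hG hM)
    refine ⟨j, ?_⟩
    rw [Matrix.mulVec_smul] at hj
    exact smul_right_injective _ hk0 hj
  exact ico_group hG hc hd hp (fun M hM => ⟨img M hM 0 h0, img M hM 1 h1, img M hM 2 h2⟩)

end Pool.Agent.H70.FT
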