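import Pool.Agent.H70.FT.Tet
import Pool.Agent.H70.FT.Gold

/-!
The finite groups of orthogonal 3 by 3 matrices without an invariant line.
-/

namespace Pool.Agent.H70.FT

open Matrix Pool.Agent.H38.FT

theorem from_cj {G : Set Mat} {U : Mat} (hU : Uᵀ * U = 1)
    (h : ∃ t : Tag, ∀ M : Mat, M ∈ cj G U ↔ M ∈ t.group) :
    ∃ U : Mat, Uᵀ * U = 1 ∧ ∃ t : Tag, ∀ M : Mat, M ∈ G ↔ Uᵀ * M * U ∈ t.group := by
  obtain ⟨t, ht⟩ := h
  exact ⟨U, hU, t, fun M => by rw [cj_iff hU, ht]⟩

theorem finite_groups (G : Set Mat) (hG : IsFinGroup G)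
    (hirr : ∀ a : Fin 3 → ℝ, a ≠ 0 → ∃ A ∈ G, A *ᵥ a ≠ a ∧ A *ᵥ a ≠ -a) :
    ∃ U : Mat, Uᵀ * U = 1 ∧ ∃ t : Tag, ∀ M : Mat, M ∈ G ↔ Uᵀ * M * U ∈ t.group := by
  obtain ⟨x, s, hD, a, ha⟩ := exists_dat hG hirr
  obtain ⟨b, hb, c1, c2⟩ := second hG hirr ha
  rcases x_cases hG hD ha with rfl | rfl | rfl | ⟨hx0, hx⟩ | hx
  · exfalso
    obtain ⟨U, hU, h0, h1⟩ := orth_frame hG ha hb (ang_m1 hG hD ha hb c1 c2)
    exact case_m1 (cj_fin hG hU) (cj_irr hU hirr) (cj_dat hD hU) h0 h1
  · -- order three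
    obtain ⟨b', hb', hab⟩ : ∃ b', Pole G (-1 / 2) s b' ∧ dt a b' = -(1 / 3) := by
      rcases le_total 0 (dt a b) with h | h
      · refine ⟨-b, hb.neg hG, ?_⟩
        rw [dt_neg_right, ang_half hG hD ha hb c1 c2 h]
      · refine ⟨b, hb, ?_⟩
        have := ang_half hG hD ha (hb.neg hG) (fun e => c2 (by rw [← e, neg_neg]))
          (fun e => c1 (neg_injective e)) (by rw [dt_neg_right]; linarith)
        rw [dt_neg_right] at this
        linarith
    have hs := hD.hs
    have hk : 3 * (2 / 3 * s) ^ 2 = 1 := by linear_combination (4 / 3) * hs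
    have hks : s * (2 / 3 * s) = 1 / 2 := by linear_combination (2 / 3) * hs
    obtain ⟨k, hkd⟩ : ∃ k, k = 2 / 3 * s := ⟨_, rfl⟩
    rw [← hkd] at hk hks
    obtain ⟨U, hU, h0, h1⟩ := frame (a := a) (b := b') (a0 := dg k 1 1 1)
      (b0 := dg k 1 (-1) (-1)) ha.1 hb'.1
      (by simp only [dt, dg0, dg1, dg2]; linear_combination hk)
      (by simp only [dt, dg0, dg1, dg2]; linear_combination hk)
      (by rw [hab]; simp only [dt, dg0, dg1, dg2]; linear_combination (-1 / 3) * hk)
      (by rw [hab]; norm_num)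
    exact from_cj hU (case_half (cj_fin hG hU) (cj_dat hD hU) hk hks
      (cj_pole hG hU (by rw [h0]; exact ha)) (cj_pole hG hU (by rw [h1]; exact hb')))
  · -- order four
    have hab : dt a b = 0 := by
      rcases le_total 0 (dt a b) with h | h
      · exact ang_0 hG hD ha hb c1 c2 h
      · have := ang_0 hG hD ha (hb.neg hG) (fun e => c2 (by rw [← e, neg_neg]))
          (fun e => c1 (neg_injective e)) (by rw [dt_neg_right]; linarith)
        rw [dt_neg_right] at this
        linarith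
    obtain ⟨U, hU, h0, h1⟩ := orth_frame hG ha hb hab
    exact from_cj hU (case_0 (cj_fin hG hU) (cj_dat hD hU) h0 h1)
  · -- order five
    have hgr := gr_sq
    have hgp : 0 < gr := Real.goldenRatio_pos
    have hxg : x = (gr - 1) / 2 := by
      have h1 : (1 + 2 * x - gr) * (1 + 2 * x + gr - 1) = 0 := by
        linear_combination hx - hgr
      rcases mul_eq_zero.mp h1 with h | h <;> linarith
    subst hxg
    have h5 : (2 * gr - 1) ^ 2 = 5 := by linear_combination 4 * hgr
    obtain ⟨b', hb', hab⟩ : ∃ b', Pole G ((gr - 1) / 2) s b' ∧ (2 * gr - 1) * dt a b' = 1 := by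
      rcases le_total 0 (dt a b) with h | h
      · refine ⟨b, hb, ?_⟩
        have := ang_gold hG hD hx0 hx ha hb c1 c2 h
        linarith
      · refine ⟨-b, hb.neg hG, ?_⟩
        have := ang_gold hG hD hx0 hx ha (hb.neg hG) (fun e => c2 (by rw [← e, neg_neg]))
          (fun e => c1 (neg_injective e)) (by rw [dt_neg_right]; linarith)
        linarith
    have hs := hD.hs
    have hg2 : gr + 2 ≠ 0 := by linarith
    have hs2 : 4 * s ^ 2 = gr + 2 := by linear_combination 4 * hs - hgr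
    obtain ⟨k, hkd⟩ : ∃ k, k = 2 * s / (gr + 2) := ⟨_, rfl⟩
    have hkm : (gr + 2) * k = 2 * s := by rw [hkd]; field_simp
    have hk : (gr + 2) * k ^ 2 = 1 := by
      have : (gr + 2) * ((gr + 2) * k ^ 2) = (gr + 2) * 1 := by
        calc (gr + 2) * ((gr + 2) * k ^ 2) = ((gr + 2) * k) ^ 2 := by ring
          _ = 4 * s ^ 2 := by rw [hkm]; ring
          _ = (gr + 2) * 1 := by rw [hs2, mul_one]
      exact mul_left_cancel₀ hg2 this
    have hks : s * k = 1 / 2 := by
      have : (gr + 2) * (s * k) = (gr + 2) * (1 / 2) := by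
        calc (gr + 2) * (s * k) = s * ((gr + 2) * k) := by ring
          _ = 2 * s ^ 2 := by rw [hkm]; ring
          _ = (gr + 2) * (1 / 2) := by linarith
      exact mul_left_cancel₀ hg2 this
    have hunit : ∀ i : Fin 12, dt (pt12 i) (pt12 i) = gr + 2 → dt (k • pt12 i) (k • pt12 i) = 1 := by
      intro i hi
      have : dt (k • pt12 i) (k • pt12 i) = k ^ 2 * dt (pt12 i) (pt12 i) := by
        simp only [dt, Pi.smul_apply, smul_eq_mul]; ring
      rw [this, hi]
      linarith
    have d00 : dt (pt12 0) (pt12 0) = gr + 2 := by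
      rw [dt_pt12]; simp [dz, pm, P12, val]; ring
    have d11 : dt (pt12 1) (pt12 1) = gr + 2 := by
      rw [dt_pt12]; simp [dz, pm, P12, val]; ring
    have d01 : dt (pt12 0) (pt12 1) = gr := by rw [dt_pt12]; simp [dz, pm, P12, val]
    have hdot : dt (k • pt12 0) (k • pt12 1) = dt a b' := by
      have e1 : dt (k • pt12 0) (k • pt12 1) = k ^ 2 * gr := by
        rw [← d01]
        simp only [dt, Pi.smul_apply, smul_eq_mul]; ring
      rw [e1]
      have h2 : (2 * gr - 1) ≠ 0 := by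
        intro h
        rw [h] at h5
        norm_num at h5
      apply mul_left_cancel₀ h2
      rw [hab]
      linear_combination hk + 2 * k ^ 2 * hgr
    obtain ⟨U, hU, h0, h1⟩ := frame (a := a) (b := b') (a0 := k • pt12 0)
      (b0 := k • pt12 1) ha.1 hb'.1 (hunit 0 d00) (hunit 1 d11) hdot
      (by
        intro h
        have : (2 * gr - 1) ^ 2 * dt a b' ^ 2 = 1 := by
          rw [← mul_pow, hab]; norm_num
        rw [h, h5] at this
        norm_num at this)
    exact from_cj hU (case_gold (cj_fin hG hU) (cj_dat hD hU) hk hks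
      (cj_pole hG hU (by rw [h0]; exact ha)) (cj_pole hG hU (by rw [h1]; exact hb')))
  · exact absurd hx (no_big hG hD ha hb c1 c2)

end Pool.Agent.H70.FT
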