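import Pool.Agent.H70.FT.Gold
import Pool.Agent.H38.FT.GroupFacts

/-!
A rotation which maps the icosahedral group into a finite group containing it.
-/

namespace Pool.Agent.H70.FT

open Matrix Pool.Agent.H38.FT

variable {G : Set Mat} {s k : ℝ}

theorem irr_of (hc : gen .c ∈ G) (hd : gen .d ∈ G) (a : Fin 3 → ℝ) (ha : a ≠ 0) :
    ∃ A ∈ G, A *ᵥ a ≠ a ∧ A *ᵥ a ≠ -a := by
  by_contra hcon
  push Not at hcon
  have key : ∀ A ∈ G, A *ᵥ a = a ∨ A *ᵥ a = -a := by
    intro A hA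
    by_cases h : A *ᵥ a = a
    · exact Or.inl h
    · exact Or.inr (hcon A hA h)
  have c0 : (gen .c *ᵥ a) 0 = a 2 := by rw [mv0]; simp [gen]
  have c1 : (gen .c *ᵥ a) 1 = a 0 := by rw [mv0]; simp [gen]
  have c2 : (gen .c *ᵥ a) 2 = a 1 := by rw [mv0]; simp [gen]
  have d0 : (gen .d *ᵥ a) 0 = a 0 := by rw [mv0]; simp [gen]
  have d1 : (gen .d *ᵥ a) 1 = -a 1 := by rw [mv0]; simp [gen]
  have d2 : (gen .d *ᵥ a) 2 = -a 2 := by rw [mv0]; simp [gen]
  apply ha
  have z : a 0 = 0 ∧ a 1 = 0 ∧ a 2 = 0 := by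
    rcases key _ hc with h | h <;> rcases key _ hd with h' | h' <;>
      rw [h] at c0 c1 c2 <;> rw [h'] at d0 d1 d2 <;> simp only [Pi.neg_apply] at c0 c1 c2 d0 d1 d2 <;>
      refine ⟨by linarith, by linarith, by linarith⟩
  exact ext3 z.1 z.2.1 z.2.2

theorem pole_pt12 (hG : IsFinGroup G) (hD : Dat G ((gr - 1) / 2) s) (hk : (gr + 2) * k ^ 2 = 1)
    (h : ∀ i, Pole G ((gr - 1) / 2) s (k • pt12 i)) :
    ∀ v, Pole G ((gr - 1) / 2) s v → ∃ i, v = k • pt12 i := by
  have hgr := gr_sq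
  have hgp : 0 < gr := Real.goldenRatio_pos
  have hg1 : 1 < gr := Real.one_lt_goldenRatio
  have hx0 : 0 < (gr - 1) / 2 := by linarith
  have hx : 4 * ((gr - 1) / 2) ^ 2 + 2 * ((gr - 1) / 2) - 1 = 0 := by linear_combination hgr
  have hsq : ∀ v w, Pole G ((gr - 1) / 2) s v → Pole G ((gr - 1) / 2) s w → w ≠ v → w ≠ -v →
      5 * dt v w ^ 2 = 1 := by
    have h5 : (1 + 4 * ((gr - 1) / 2)) ^ 2 = 5 := by linear_combination 4 * hgr
    have key : ∀ t : ℝ, (1 + 4 * ((gr - 1) / 2)) * t = 1 → 5 * t ^ 2 = 1 := by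
      intro t ht
      calc 5 * t ^ 2 = ((1 + 4 * ((gr - 1) / 2)) * t) ^ 2 := by rw [mul_pow, h5]
        _ = 1 := by rw [ht]; norm_num
    intro v w hv hw c1 c2
    rcases le_total 0 (dt v w) with h | h
    · exact key _ (ang_gold hG hD hx0 hx hv hw c1 c2 h)
    · have := key _ (ang_gold hG hD hx0 hx hv (hw.neg hG) (fun e => c2 (by rw [← e, neg_neg]))
        (fun e => c1 (neg_injective e)) (by rw [dt_neg_right]; linarith))
      rw [dt_neg_right] at this
      linarith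
  intro v hv
  by_contra hcon
  push Not at hcon
  have hdt : ∀ i, dt (k • pt12 i) v = k * dt (pt12 i) v := by
    intro i
    simp only [dt, Pi.smul_apply, smul_eq_mul]
    ring
  have key : ∀ i, 5 * (k ^ 2 * dt (pt12 i) v ^ 2) = 1 := by
    intro i
    have := hsq _ _ (h i) hv (hcon i) (by rw [← smul_neg, ← pt12_opp]; exact hcon _)
    rw [hdt] at this
    linarith
  have hsum := six_sum v
  rw [hv.1] at hsum
  have : 5 * (k ^ 2 * (2 * (gr + 2) * 1)) = 6 := by
    rw [← hsum]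
    linear_combination key 0 + key 1 + key 2 + key 3 + key 5 + key 8
  have h10 : 5 * (k ^ 2 * (2 * (gr + 2) * 1)) = 10 := by linear_combination 10 * hk
  linarith

theorem rot_p (hk : (gr + 2) * k ^ 2 = 1) (hks : s * k = 1 / 2) :
    rot (k • pt12 0) ((gr - 1) / 2) s = gen .p := by
  have hgr := gr_sq
  rw [rot_pt hk hks, p0.1, p0.2.1, p0.2.2]
  apply ext9 <;> simp [gen] <;>
    first
      | ring1
      | linear_combination (1 / 4 : ℝ) * hgr
      | linear_combination (-1 / 4 : ℝ) * hgr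
      | linear_combination (1 / 2 : ℝ) * hgr
      | linear_combination (-1 / 2 : ℝ) * hgr
      | linear_combination (1 / 2 - 1 / 2 * gr : ℝ) * hgr

/-- Words which move the first point to all the points. -/
def w12 : Fin 12 → List Letter :=
  ![[], [.p, .p, .p, .p, .c], [.c], [.p, .c], [.n, .p, .p, .p, .p, .c], [.p, .p, .p, .c],
    [.n, .p, .p, .c], [.n, .p, .p, .p, .c], [.p, .p, .c], [.n], [.n, .c], [.n, .p, .c]]

theorem w12_letters : ∀ i, ∀ l ∈ w12 i, l = .c ∨ l = .p ∨ l = .n := by decide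

theorem w12_act : ∀ i, actw act12 (w12 i) 0 = i := by decide

theorem pt12_word (i : Fin 12) : ev (w12 i) *ᵥ pt12 0 = pt12 i := by
  have hP : ∀ l ∈ w12 i, l ≠ Letter.q ∧ l ≠ Letter.s := by
    intro l hl
    rcases w12_letters i l hl with rfl | rfl | rfl <;> decide
  rw [ev_act pt12 act12 (fun l => l ≠ Letter.q ∧ l ≠ Letter.s) gen_pt12 (w12 i) hP, w12_act]

theorem w12_mem (i : Fin 12) : ev (w12 i) ∈ Tag.Ih.group := by
  apply mem_ev
  intro l hl
  rcases w12_letters i l hl with rfl | rfl | rfl <;> decide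

theorem mem_Ih_of_normal (A : Mat) (hA : Aᵀ * A = 1) (G : Set Mat) (hG : IsFinGroup G)
    (h1 : ∀ M ∈ Tag.Ih.group, M ∈ G) (h2 : ∀ M ∈ Tag.Ih.group, Aᵀ * M * A ∈ G) :
    A ∈ Tag.Ih.group := by
  have hgr := gr_sq
  have hgp : 0 < gr := Real.goldenRatio_pos
  have hg1 : 1 < gr := Real.one_lt_goldenRatio
  have mc : gen .c ∈ Tag.Ih.group := Tag.gen_mem (by decide)
  have md : gen .d ∈ Tag.Ih.group := Tag.gen_mem (by decide)
  have mp : gen .p ∈ Tag.Ih.group := Tag.gen_mem (by decide)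
  have hirr := irr_of (h1 _ mc) (h1 _ md)
  obtain ⟨x, s, hD, a, ha⟩ := exists_dat hG hirr
  obtain ⟨b, hb, c1, c2⟩ := second hG hirr ha
  -- the constants
  obtain ⟨s', hs'0, hs'⟩ : ∃ s' : ℝ, 0 < s' ∧ ((gr - 1) / 2) ^ 2 + s' ^ 2 = 1 := by
    have hg2 : gr < 2 := Real.goldenRatio_lt_two
    refine ⟨√(1 - ((gr - 1) / 2) ^ 2), Real.sqrt_pos.mpr (by nlinarith), ?_⟩
    rw [Real.sq_sqrt (by nlinarith)]
    ring
  have hg2 : gr + 2 ≠ 0 := by linarith
  have hs2 : 4 * s' ^ 2 = gr + 2 := by linear_combination 4 * hs' - hgr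
  obtain ⟨k, hkd⟩ : ∃ k, k = 2 * s' / (gr + 2) := ⟨_, rfl⟩
  have hkm : (gr + 2) * k = 2 * s' := by rw [hkd]; field_simp
  have hk : (gr + 2) * k ^ 2 = 1 := by
    have : (gr + 2) * ((gr + 2) * k ^ 2) = (gr + 2) * 1 := by
      calc (gr + 2) * ((gr + 2) * k ^ 2) = ((gr + 2) * k) ^ 2 := by ring
        _ = 4 * s' ^ 2 := by rw [hkm]; ring
        _ = (gr + 2) * 1 := by rw [hs2, mul_one]
    exact mul_left_cancel₀ hg2 this
  have hks : s' * k = 1 / 2 := by
    have : (gr + 2) * (s' * k) = (gr + 2) * (1 / 2) := by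
      calc (gr + 2) * (s' * k) = s' * ((gr + 2) * k) := by ring
        _ = 2 * s' ^ 2 := by rw [hkm]; ring
        _ = (gr + 2) * (1 / 2) := by linarith
    exact mul_left_cancel₀ hg2 this
  have hk0 : k ≠ 0 := by
    intro h
    rw [h] at hk
    norm_num at hk
  have hu : dt (k • pt12 0) (k • pt12 0) = 1 := by
    have e : dt (k • pt12 0) (k • pt12 0) = k ^ 2 * dt (pt12 0) (pt12 0) := by
      simp only [dt, Pi.smul_apply, smul_eq_mul]; ring
    have d00 : dt (pt12 0) (pt12 0) = gr + 2 := by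
      rw [dt_pt12]; simp [dz, pm, P12, val]; ring
    rw [e, d00]
    linarith
  -- the largest cosine
  have hxle : (gr - 1) / 2 ≤ x := by
    rcases pw hD hu hs' (by rw [rot_p hk hks]; exact h1 _ mp) with h | h
    · have hg2 : gr < 2 := Real.goldenRatio_lt_two
      linarith
    · exact h
  have hxg : x = (gr - 1) / 2 := by
    rcases x_cases hG hD ha with h | h | h | ⟨hx0, hx⟩ | h
    · linarith
    · linarith
    · linarith
    · have e1 : (1 + 2 * x - gr) * (1 + 2 * x + gr - 1) = 0 := by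
        linear_combination hx - hgr
      rcases mul_eq_zero.mp e1 with h | h <;> linarith
    · exact absurd h (no_big hG hD ha hb c1 c2)
  subst hxg
  have hss : s' = s := by
    have h := hD.hs
    have : s' ^ 2 = s ^ 2 := by linarith
    exact (sq_eq_sq₀ hs'0.le hD.s0).mp this
  subst hss
  have hp0 : Pole G ((gr - 1) / 2) s' (k • pt12 0) := ⟨hu, by
    rw [rot_p hk hks]; exact h1 _ mp⟩
  have hpi : ∀ i, Pole G ((gr - 1) / 2) s' (k • pt12 i) := by
    intro i
    have := hp0.map hG (h1 _ (w12_mem i))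
    rwa [Matrix.mulVec_smul, pt12_word] at this
  have hpole := pole_pt12 hG hD hk hpi
  have hrot : ∀ i, rot (k • pt12 i) ((gr - 1) / 2) s' ∈ Tag.Ih.group := by
    intro i
    have ho := Tag.orth (w12_mem i)
    have e := rot_conj ho (k • pt12 0) ((gr - 1) / 2) s'
    rw [Matrix.mulVec_smul, pt12_word, rot_p hk hks] at e
    have hm : ev (w12 i) * gen .p * (ev (w12 i))ᵀ ∈ Tag.Ih.group :=
      mul_mem (mul_mem (w12_mem i) mp) (Tag.tr (w12_mem i))
    rw [e] at hm
    rcases mul_self_eq_one_iff.mp (det_sq ho) with hd | hd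
    · rw [hd, one_mul] at hm
      exact hm
    · rw [hd, neg_one_mul, ← rot_tr] at hm
      have := Tag.tr hm
      rwa [Matrix.transpose_transpose] at this
  have hA' : Aᵀᵀ * Aᵀ = 1 := by
    rw [Matrix.transpose_transpose]
    exact mul_eq_one_comm.1 hA
  have himg : ∀ i, ∃ j, Aᵀ *ᵥ pt12 i = pt12 j := by
    intro i
    have e := rot_conj hA' (k • pt12 i) ((gr - 1) / 2) s'
    rw [Matrix.transpose_transpose] at e
    have hm := h2 _ (hrot i)
    rw [e] at hm
    have hpl : Pole G ((gr - 1) / 2) s' (Aᵀ *ᵥ (k • pt12 i)) := by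
      refine ⟨by rw [dt_mul hA', (hpi i).1], ?_⟩
      rcases mul_self_eq_one_iff.mp (det_sq hA') with hd | hd
      · rw [hd, one_mul] at hm
        exact hm
      · rw [hd, neg_one_mul, ← rot_tr] at hm
        have := hG.tr _ hm
        rwa [Matrix.transpose_transpose] at this
    obtain ⟨j, hj⟩ := hpole _ hpl
    refine ⟨j, ?_⟩
    rw [Matrix.mulVec_smul] at hj
    exact smul_right_injective _ hk0 hj
  obtain ⟨i0, e0⟩ := himg 0
  obtain ⟨i1, e1⟩ := himg 1
  obtain ⟨i2, e2⟩ := himg 2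
  obtain ⟨w, hw, hwe⟩ := ico_word hA' e0 e1 e2
  have hmem : Aᵀ ∈ Tag.Ih.group := by
    rw [hwe]
    apply mem_ev
    intro l hl
    rcases List.mem_append.mp hl with h | h
    · rcases hw l h with rfl | rfl | rfl <;> decide
    · cases hb : w.2 with
      | false => rw [hb] at h; simp at h
      | true => rw [hb] at h; simp at h; subst h; decide
  have := Tag.tr hmem
  rwa [Matrix.transpose_transpose] at this

end Pool.Agent.H70.FT
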