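import Pool.Agent.H70.FT.Rot

/-!
Algebra of the rotation matrices: conjugation, products, traces, action on vectors.
-/

namespace Pool.Agent.H70.FT

open Matrix Pool.Agent.H38.FT

variable (a b : Fin 3 → ℝ) (x s x' s' : ℝ)

theorem rot00 : rot a x s 0 0 = x + (1 - x) * a 0 * a 0 := rfl
theorem rot01 : rot a x s 0 1 = (1 - x) * a 0 * a 1 - s * a 2 := rfl
theorem rot02 : rot a x s 0 2 = (1 - x) * a 0 * a 2 + s * a 1 := rfl
theorem rot10 : rot a x s 1 0 = (1 - x) * a 1 * a 0 + s * a 2 := rfl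
theorem rot11 : rot a x s 1 1 = x + (1 - x) * a 1 * a 1 := rfl
theorem rot12 : rot a x s 1 2 = (1 - x) * a 1 * a 2 - s * a 0 := rfl
theorem rot20 : rot a x s 2 0 = (1 - x) * a 2 * a 0 - s * a 1 := rfl
theorem rot21 : rot a x s 2 1 = (1 - x) * a 2 * a 1 + s * a 0 := rfl
theorem rot22 : rot a x s 2 2 = x + (1 - x) * a 2 * a 2 := rfl

theorem ext9 {M N : Mat} (h00 : M 0 0 = N 0 0) (h01 : M 0 1 = N 0 1) (h02 : M 0 2 = N 0 2)
    (h10 : M 1 0 = N 1 0) (h11 : M 1 1 = N 1 1) (h12 : M 1 2 = N 1 2)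
    (h20 : M 2 0 = N 2 0) (h21 : M 2 1 = N 2 1) (h22 : M 2 2 = N 2 2) : M = N := by
  ext i j
  fin_cases i <;> fin_cases j <;> assumption

theorem ext3 {u v : Fin 3 → ℝ} (h0 : u 0 = v 0) (h1 : u 1 = v 1) (h2 : u 2 = v 2) : u = v := by
  ext i
  fin_cases i <;> assumption

theorem rot_neg : rot (-a) x s = rot a x (-s) := by
  apply ext9 <;> simp only [rot00, rot01, rot02, rot10, rot11, rot12, rot20, rot21, rot22,
    Pi.neg_apply] <;> ring

theorem rot_tr : (rot a x s)ᵀ = rot a x (-s) := by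
  apply ext9 <;> simp only [Matrix.transpose_apply, rot00, rot01, rot02, rot10, rot11, rot12,
    rot20, rot21, rot22] <;> ring

theorem rot_one : rot a 1 0 = 1 := by
  apply ext9 <;> simp [rot]

variable {a b x s}

theorem rot_trace (ha : dt a a = 1) : (rot a x s).trace = 1 + 2 * x := by
  simp only [Matrix.trace, Fin.sum_univ_three, Matrix.diag_apply, rot00, rot11, rot22]
  simp only [dt] at ha
  linear_combination (1 - x) * ha

theorem rot_mul (ha : dt a a = 1) :
    rot a x s * rot a x' s' = rot a (x * x' - s * s') (x * s' + s * x') := by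
  simp only [dt] at ha
  apply ext9 <;> simp only [mm0, rot00, rot01, rot02, rot10, rot11, rot12, rot20, rot21, rot22]
  · linear_combination (-(s * s') + (1 - x) * (1 - x') * a 0 * a 0) * ha
  · linear_combination ((1 - x) * (1 - x') * a 0 * a 1) * ha
  · linear_combination ((1 - x) * (1 - x') * a 0 * a 2) * ha
  · linear_combination ((1 - x) * (1 - x') * a 1 * a 0) * ha
  · linear_combination (-(s * s') + (1 - x) * (1 - x') * a 1 * a 1) * ha
  · linear_combination ((1 - x) * (1 - x') * a 1 * a 2) * ha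
  · linear_combination ((1 - x) * (1 - x') * a 2 * a 0) * ha
  · linear_combination ((1 - x) * (1 - x') * a 2 * a 1) * ha
  · linear_combination (-(s * s') + (1 - x) * (1 - x') * a 2 * a 2) * ha

theorem rot_orth (ha : dt a a = 1) (hs : x ^ 2 + s ^ 2 = 1) : (rot a x s)ᵀ * rot a x s = 1 := by
  rw [rot_tr, rot_mul _ _ ha]
  have h1 : x * x - -s * s = 1 := by linear_combination hs
  have h2 : x * s + -s * x = 0 := by ring
  rw [h1, h2, rot_one]

theorem rot_det (ha : dt a a = 1) (hs : x ^ 2 + s ^ 2 = 1) : (rot a x s).det = 1 := by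
  have h : (rot a x s).det = (x + (1 - x) * dt a a) * (x ^ 2 + s ^ 2 * dt a a) := by
    rw [Matrix.det_fin_three]
    simp only [rot00, rot01, rot02, rot10, rot11, rot12, rot20, rot21, rot22, dt]
    ring
  rw [h, ha]
  linear_combination hs

theorem rot_conj {M : Mat} (hM : Mᵀ * M = 1) (a : Fin 3 → ℝ) (x s : ℝ) :
    M * rot a x s * Mᵀ = rot (M *ᵥ a) x (M.det * s) := by
  obtain ⟨c00, c01, c02, c10, c11, c12, c20, c21, c22⟩ := cof_all hM
  have f00 := orth_row hM 0 0
  have f01 := orth_row hM 0 1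
  have f02 := orth_row hM 0 2
  have f11 := orth_row hM 1 1
  have f12 := orth_row hM 1 2
  have f22 := orth_row hM 2 2
  simp at f00 f01 f02 f11 f12 f22
  apply ext9 <;> simp only [mm0, mv0, Matrix.transpose_apply, rot00, rot01, rot02, rot10, rot11,
    rot12, rot20, rot21, rot22]
  · linear_combination x * f00
  · linear_combination x * f01 - s * (a 0 * c20 + a 1 * c21 + a 2 * c22)
  · linear_combination x * f02 + s * (a 0 * c10 + a 1 * c11 + a 2 * c12)
  · linear_combination x * f01 + s * (a 0 * c20 + a 1 * c21 + a 2 * c22)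
  · linear_combination x * f11
  · linear_combination x * f12 - s * (a 0 * c00 + a 1 * c01 + a 2 * c02)
  · linear_combination x * f02 - s * (a 0 * c10 + a 1 * c11 + a 2 * c12)
  · linear_combination x * f12 + s * (a 0 * c00 + a 1 * c01 + a 2 * c02)
  · linear_combination x * f22

theorem trace_mul (ha : dt a a = 1) (hb : dt b b = 1) (hs : x ^ 2 + s ^ 2 = 1) :
    (rot a x s * rot b x s).trace = ((1 + x) - (1 - x) * dt a b) ^ 2 - 1 := by
  simp only [Matrix.trace, Fin.sum_univ_three, Matrix.diag_apply, mm0, rot00, rot01, rot02, rot10,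
    rot11, rot12, rot20, rot21, rot22, dt] at *
  linear_combination x * (1 - x) * (ha + hb) - 2 * (a 0 * b 0 + a 1 * b 1 + a 2 * b 2) * hs

theorem dt_rot (hb : dt b b = 1) (a : Fin 3 → ℝ) (x s : ℝ) :
    dt b (rot a x s *ᵥ b) = x + (1 - x) * dt a b ^ 2 := by
  simp only [dt, mv0, rot00, rot01, rot02, rot10, rot11, rot12, rot20, rot21, rot22] at *
  linear_combination x * hb

theorem dt_rot2 (ha : dt a a = 1) (hb : dt b b = 1) (hs : x ^ 2 + s ^ 2 = 1) :
    dt (rot a x s *ᵥ b) (rot b x (-s) *ᵥ a) =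
      x * (2 - x) * dt a b + (1 - x) ^ 2 * dt a b ^ 3 + (1 - x ^ 2) * (1 - dt a b ^ 2) := by
  simp only [dt, mv0, rot00, rot01, rot02, rot10, rot11, rot12, rot20, rot21, rot22] at *
  linear_combination x * (1 - x) * (a 0 * b 0 + a 1 * b 1 + a 2 * b 2) * (ha + hb) +
    s ^ 2 * ((b 0 * b 0 + b 1 * b 1 + b 2 * b 2) * ha + hb) +
    (1 - (a 0 * b 0 + a 1 * b 1 + a 2 * b 2) ^ 2) * hs

end Pool.Agent.H70.FT
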