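import Pool.Agent.H70.FT.Poles

/-!
The angles between the poles.
-/

namespace Pool.Agent.H70.FT

open Matrix Pool.Agent.H38.FT

variable {G : Set Mat} {x s : ℝ} {a b : Fin 3 → ℝ}

theorem second (hG : IsFinGroup G)
    (hirr : ∀ a : Fin 3 → ℝ, a ≠ 0 → ∃ A ∈ G, A *ᵥ a ≠ a ∧ A *ᵥ a ≠ -a) (ha : Pole G x s a) :
    ∃ b, Pole G x s b ∧ b ≠ a ∧ b ≠ -a := by
  have h0 : a ≠ 0 := by
    intro h
    have := ha.1
    rw [h] at this
    simp [dt] at this
  obtain ⟨A, hA, h1, h2⟩ := hirr a h0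
  exact ⟨A *ᵥ a, ha.map hG hA, h1, h2⟩

theorem no_big (hG : IsFinGroup G) (hD : Dat G x s) (ha : Pole G x s a) (hb : Pole G x s b)
    (h1 : b ≠ a) (h2 : b ≠ -a) : ¬ 1 / 2 ≤ x := by
  intro hx
  have hx1 := hD.x1
  have hlt := dt_lt_one ha.1 hb.1 h1
  have hgt := dt_gt ha.1 hb.1 h2
  have hb' : Pole G x s (rot a x s *ᵥ b) := hb.map hG ha.2
  have ht := dt_rot hb.1 a x s
  have hsq : dt a b ^ 2 < 1 := by nlinarith
  have hsq0 := sq_nonneg (dt a b)
  have n1 : rot a x s *ᵥ b ≠ b := by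
    intro h
    rw [h, hb.1] at ht
    nlinarith
  have n2 : rot a x s *ᵥ b ≠ -b := by
    intro h
    rw [h, dt_neg_right, hb.1] at ht
    nlinarith
  have := pair' hG hD hb hb' n1 n2
  rw [ht] at this
  set t := dt a b ^ 2
  have h3 : x ≤ x + (1 - x) * t := by nlinarith
  have h4 : (1 - x) * (1 / 2) ≤ (1 - x) * (x + (1 - x) * t) := by
    apply mul_le_mul_of_nonneg_left _ (by linarith)
    linarith
  have h5 : (3 + x) / 2 ≤ (1 + x) + (1 - x) * (x + (1 - x) * t) := by linarith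
  have h6 : ((3 + x) / 2) ^ 2 ≤ ((1 + x) + (1 - x) * (x + (1 - x) * t)) ^ 2 := by
    apply pow_le_pow_left₀ (by linarith) h5
  nlinarith

/-- The three possibilities for the second inner product. -/
theorem dd (hG : IsFinGroup G) (hD : Dat G x s) (ha : Pole G x s a) (hb : Pole G x s b) {D : ℝ}
    (hDD : D = x * (2 - x) * dt a b + (1 - x) ^ 2 * dt a b ^ 3 + (1 - x ^ 2) * (1 - dt a b ^ 2)) :
    D = 1 ∨ D = -1 ∨ (((1 + x) - (1 - x) * D) ^ 2 ≤ 2 + 2 * x ∧
      ((1 + x) + (1 - x) * D) ^ 2 ≤ 2 + 2 * x) := by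
  have hp : Pole G x s (rot a x s *ᵥ b) := hb.map hG ha.2
  have hq : Pole G x s (rot b x (-s) *ᵥ a) := ha.map hG (hb.inv hG)
  have hd := dt_rot2 ha.1 hb.1 hD.hs
  rw [← hDD] at hd
  by_cases h1 : rot b x (-s) *ᵥ a = rot a x s *ᵥ b
  · left
    rw [h1, hp.1] at hd
    exact hd.symm
  by_cases h2 : rot b x (-s) *ᵥ a = -(rot a x s *ᵥ b)
  · right; left
    rw [h2, dt_neg_right, hp.1] at hd
    exact hd.symm
  · right; right
    have e1 := pair hG hD hp hq h1 h2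
    have e2 := pair' hG hD hp hq h1 h2
    rw [hd] at e1 e2
    exact ⟨e1, e2⟩

theorem ang_m1 (hG : IsFinGroup G) (hD : Dat G (-1) s) (ha : Pole G (-1) s a)
    (hb : Pole G (-1) s b) (h1 : b ≠ a) (h2 : b ≠ -a) : dt a b = 0 := by
  have := pair hG hD ha hb h1 h2
  nlinarith [sq_nonneg (dt a b)]

theorem real_0 {t D : ℝ} (ht0 : 0 ≤ t) (ht1 : t < 1) (h : (1 + t) ^ 2 ≤ 2)
    (hD : D = 1 - t ^ 2 + t ^ 3) (h3 : D = 1 ∨ D = -1 ∨ (1 + D) ^ 2 ≤ 2) : t = 0 := by
  have h42 : t < 21 / 50 := by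
    by_contra hc
    push_neg at hc
    nlinarith
  have hDlow : 4 / 5 < D := by
    rw [hD]
    have : 0 ≤ t ^ 3 := by positivity
    nlinarith
  rcases h3 with h3 | h3 | h3
  · rw [hD] at h3
    have : t ^ 2 * (t - 1) = 0 := by linear_combination h3
    rcases mul_eq_zero.mp this with h | h
    · exact pow_eq_zero_iff (two_ne_zero) |>.mp h
    · linarith
  · linarith
  · nlinarith

theorem real_half {t D : ℝ} (ht0 : 0 ≤ t) (h : (1 / 2 + 3 / 2 * t) ^ 2 ≤ 1)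
    (hD : D = -5 / 4 * t + 9 / 4 * t ^ 3 + 3 / 4 * (1 - t ^ 2))
    (h3 : D = 1 ∨ D = -1 ∨ (1 / 2 + 3 / 2 * D) ^ 2 ≤ 1) : t = 1 / 3 := by
  have h13 : t ≤ 1 / 3 := by nlinarith
  have h9 : t ^ 2 ≤ 1 / 9 := by nlinarith
  have hfac : D - 1 / 3 = (1 / 3 - t) * (5 / 4 - 9 / 4 * t ^ 2) := by rw [hD]; ring
  have hpos : 0 ≤ (1 / 3 - t) * (5 / 4 - 9 / 4 * t ^ 2) := by
    apply mul_nonneg <;> linarith
  have hDle : D < 1 := by
    rw [hD]
    have : t ^ 3 ≤ 1 / 9 * t := by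
      have : t ^ 3 = t ^ 2 * t := by ring
      rw [this]
      exact mul_le_mul_of_nonneg_right h9 ht0
    nlinarith [sq_nonneg t]
  rcases h3 with h3 | h3 | h3
  · linarith
  · linarith
  · have hD3 : D ≤ 1 / 3 := by nlinarith
    have h0 : (1 / 3 - t) * (5 / 4 - 9 / 4 * t ^ 2) = 0 := by linarith
    rcases mul_eq_zero.mp h0 with h | h <;> linarith

theorem real_gold {x t D : ℝ} (hx0 : 0 < x) (hx : 4 * x ^ 2 + 2 * x - 1 = 0) (ht0 : 0 ≤ t)
    (ht1 : t < 1) (h : ((1 + x) + (1 - x) * t) ^ 2 ≤ 2 + 2 * x)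
    (hD : D = x * (2 - x) * t + (1 - x) ^ 2 * t ^ 3 + (1 - x ^ 2) * (1 - t ^ 2))
    (h3 : D = 1 ∨ D = -1 ∨ ((1 + x) + (1 - x) * D) ^ 2 ≤ 2 + 2 * x) :
    (1 + 4 * x) * t = 1 := by
  have xl : 3 / 10 < x := by nlinarith
  have xu : x < 31 / 100 := by nlinarith
  have hg : (1 + 2 * x) ^ 2 = 2 + 2 * x := by linear_combination hx
  have h1 : (1 + x) + (1 - x) * t ≤ 1 + 2 * x := by
    rw [← hg] at h
    exact le_of_sq_le_sq h (by linarith)
  have h2 : (1 - x) * t ≤ x := by linarith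
  have ht2 : t ≤ 9 / 20 := by
    by_contra hc
    push_neg at hc
    nlinarith
  have hc5 : (1 + 4 * x) ^ 2 = 5 := by linear_combination 4 * hx
  obtain ⟨u, hu⟩ : ∃ u, u = t - (1 + 4 * x) / 5 := ⟨_, rfl⟩
  have hid : D - 1 = (1 - x) ^ 2 * u ^ 2 * (t - 1) := by
    rw [hu, hD]
    have : (t - (1 + 4 * x) / 5) ^ 2 = t ^ 2 - 2 / 5 * (1 + 4 * x) * t + 1 / 5 := by
      linear_combination (1 / 25) * hc5
    rw [this]
    linear_combination (-(2 / 5) * (1 - x) * t ^ 2 + (3 - 2 * x) / 5 * t - 1 / 5) * hx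
  have hul : -(9 / 20) ≤ u := by rw [hu]; linarith
  have huu : u ≤ 9 / 20 := by rw [hu]; linarith
  have hu2 : u ^ 2 ≤ 81 / 400 := by nlinarith
  have hu0 := sq_nonneg u
  have h1x : (1 - x) ^ 2 ≤ 1 / 2 := by nlinarith
  have hprod : (1 - x) ^ 2 * u ^ 2 ≤ 1 / 2 * (81 / 400) := by
    apply mul_le_mul h1x hu2 hu0 (by norm_num)
  have hprod0 : 0 ≤ (1 - x) ^ 2 * u ^ 2 := by positivity
  have hDlow : 4 / 5 ≤ D := by
    have : (1 - x) ^ 2 * u ^ 2 * (1 - t) ≤ (1 - x) ^ 2 * u ^ 2 * 1 := by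
      apply mul_le_mul_of_nonneg_left (by linarith) hprod0
    linarith
  rcases h3 with h3 | h3 | h3
  · have h0 : (1 - x) ^ 2 * u ^ 2 * (t - 1) = 0 := by rw [← hid, h3]; ring
    rcases mul_eq_zero.mp h0 with h | h
    · rcases mul_eq_zero.mp h with h | h
      · exfalso
        have := pow_eq_zero_iff (two_ne_zero) |>.mp h
        linarith
      · have hu00 := pow_eq_zero_iff (two_ne_zero) |>.mp h
        rw [hu00] at hu
        have : t = (1 + 4 * x) / 5 := by linarith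
        rw [this]
        linear_combination (1 / 5) * hc5
    · linarith
  · linarith
  · exfalso
    have h4 : (1 + x) + (1 - x) * D ≤ 1 + 2 * x := by
      rw [← hg] at h3
      exact le_of_sq_le_sq h3 (by linarith)
    have h5 : (1 - x) * (4 / 5) ≤ (1 - x) * D := mul_le_mul_of_nonneg_left hDlow (by linarith)
    linarith

theorem ang_0 (hG : IsFinGroup G) (hD : Dat G 0 s) (ha : Pole G 0 s a)
    (hb : Pole G 0 s b) (h1 : b ≠ a) (h2 : b ≠ -a) (h0 : 0 ≤ dt a b) : dt a b = 0 := by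
  have e := pair' hG hD ha hb h1 h2
  have d := dd hG hD ha hb rfl
  refine real_0 h0 (dt_lt_one ha.1 hb.1 h1) (by linarith) rfl ?_
  rcases d with d | d | d
  · left; linarith
  · right; left; linarith
  · right; right
    have := d.2
    linarith

theorem ang_half (hG : IsFinGroup G) (hD : Dat G (-1 / 2) s) (ha : Pole G (-1 / 2) s a)
    (hb : Pole G (-1 / 2) s b) (h1 : b ≠ a) (h2 : b ≠ -a) (h0 : 0 ≤ dt a b) :
    dt a b = 1 / 3 := by
  have e := pair' hG hD ha hb h1 h2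
  have d := dd hG hD ha hb rfl
  refine real_half h0 (by linarith) rfl ?_
  rcases d with d | d | d
  · left; linarith
  · right; left; linarith
  · right; right
    have := d.2
    linarith

theorem ang_gold (hG : IsFinGroup G) (hD : Dat G x s) (hx0 : 0 < x)
    (hx : 4 * x ^ 2 + 2 * x - 1 = 0) (ha : Pole G x s a)
    (hb : Pole G x s b) (h1 : b ≠ a) (h2 : b ≠ -a) (h0 : 0 ≤ dt a b) :
    (1 + 4 * x) * dt a b = 1 := by
  have e := pair' hG hD ha hb h1 h2
  have d := dd hG hD ha hb rfl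
  refine real_gold hx0 hx h0 (dt_lt_one ha.1 hb.1 h1) e rfl ?_
  rcases d with d | d | d
  · left; linarith
  · right; left; linarith
  · right; right
    exact d.2

/-- Squares of the inner products, without a sign condition. -/
theorem sq_of_nonneg {P : Set Mat → Prop} (hG : IsFinGroup G) (ha : Pole G x s a)
    (hb : Pole G x s b) (h1 : b ≠ a) (h2 : b ≠ -a) (c : ℝ)
    (h : ∀ b', Pole G x s b' → b' ≠ a → b' ≠ -a → 0 ≤ dt a b' → dt a b' ^ 2 = c) :
    dt a b ^ 2 = c := by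
  rcases le_total 0 (dt a b) with h0 | h0
  · exact h b hb h1 h2 h0
  · have := h (-b) (hb.neg hG) (fun e => h2 (by rw [← e, neg_neg]))
      (fun e => h1 (neg_injective e)) (by rw [dt_neg_right]; linarith)
    rw [dt_neg_right] at this
    linarith

end Pool.Agent.H70.FT
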