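import Pool.Agent.H70.FT.Words

/-!
The groups of signed permutation matrices containing the tetrahedral rotation group.
-/

namespace Pool.Agent.H70.FT

open Matrix Pool.Agent.H38.FT

/-- The six points. -/
def pt6 : Fin 6 → Fin 3 → ℝ :=
  ![![1, 0, 0], ![0, 1, 0], ![0, 0, 1], ![-1, 0, 0], ![0, -1, 0], ![0, 0, -1]]

/-- The action of the letters on the six points. -/
def act6 : Letter → Fin 6 → Fin 6
  | .c => ![1, 2, 0, 4, 5, 3]
  | .d => ![0, 4, 5, 3, 1, 2]
  | .q => ![1, 3, 2, 4, 0, 5]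
  | .n => ![3, 4, 5, 0, 1, 2]
  | .s => ![1, 0, 2, 4, 3, 5]
  | .p => id

theorem gen_pt6 (l : Letter) (hl : l ≠ .p) (i : Fin 6) : gen l *ᵥ pt6 i = pt6 (act6 l i) := by
  cases l <;> first | exact absurd rfl hl | skip
  all_goals
    fin_cases i <;> ext j <;> fin_cases j <;> simp [mv0, gen, pt6, act6]

/-- Words of the rotations of the tetrahedron. -/
def wT : List (List Letter) :=
  [[], [.c], [.d], [.c, .c], [.d, .c], [.c, .d], [.d, .c, .c], [.c, .d, .c], [.c, .c, .d],
    [.d, .c, .d], [.c, .d, .c, .c], [.c, .c, .d, .c]]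

def wL : List (List Letter) := [[], [.n], [.q], [.s]]

set_option maxRecDepth 100000 in
theorem enum6 : ∀ i j k : Fin 6, i ≠ j → i ≠ act6 .n j → i ≠ k → i ≠ act6 .n k → j ≠ k →
    j ≠ act6 .n k → ∃ w ∈ wT, ∃ l ∈ wL, actw act6 (w ++ l) 0 = i ∧ actw act6 (w ++ l) 1 = j ∧
      actw act6 (w ++ l) 2 = k := by
  decide

theorem dt_pt6 (i : Fin 6) : dt (pt6 i) (pt6 i) = 1 := by
  fin_cases i <;> simp [dt, pt6]

theorem pt6_opp (i : Fin 6) : pt6 (act6 .n i) = -pt6 i := by
  fin_cases i <;> ext j <;> fin_cases j <;> simp [pt6, act6]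

theorem ne_of_dt {i j : Fin 6} (h : dt (pt6 i) (pt6 j) = 0) : i ≠ j ∧ i ≠ act6 .n j := by
  constructor
  · rintro rfl
    rw [dt_pt6] at h
    exact one_ne_zero h
  · rintro rfl
    rw [pt6_opp, dt_neg_left, dt_pt6] at h
    norm_num at h

theorem wT_letters : ∀ w ∈ wT, ∀ l ∈ w, l = .c ∨ l = .d := by decide

theorem wL_letters : ∀ w ∈ wL, ∀ l ∈ w, l ≠ .p := by decide

theorem cube_word {M : Mat} (hM : Mᵀ * M = 1) {i j k : Fin 6} (h0 : M *ᵥ pt6 0 = pt6 i)
    (h1 : M *ᵥ pt6 1 = pt6 j) (h2 : M *ᵥ pt6 2 = pt6 k) :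
    ∃ w ∈ wT, ∃ l ∈ wL, M = ev (w ++ l) := by
  have o01 : dt (pt6 i) (pt6 j) = 0 := by
    rw [← h0, ← h1, dt_mul hM]; simp [dt, pt6]
  have o02 : dt (pt6 i) (pt6 k) = 0 := by
    rw [← h0, ← h2, dt_mul hM]; simp [dt, pt6]
  have o12 : dt (pt6 j) (pt6 k) = 0 := by
    rw [← h1, ← h2, dt_mul hM]; simp [dt, pt6]
  obtain ⟨w, hw, l, hl, e0, e1, e2⟩ := enum6 i j k (ne_of_dt o01).1 (ne_of_dt o01).2
    (ne_of_dt o02).1 (ne_of_dt o02).2 (ne_of_dt o12).1 (ne_of_dt o12).2
  have hP : ∀ x ∈ w ++ l, x ≠ Letter.p := by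
    intro x hx
    rcases List.mem_append.mp hx with h | h
    · rcases wT_letters w hw x h with rfl | rfl <;> decide
    · exact wL_letters l hl x h
  have hev := ev_act pt6 act6 (fun l => l ≠ Letter.p) gen_pt6 (w ++ l) hP
  refine ⟨w, hw, l, hl, det_three (u := pt6 0) (v := pt6 1) (w := pt6 2) ?_ ?_ ?_ ?_⟩
  · simp [pt6]
  · rw [h0, hev, e0]
  · rw [h1, hev, e1]
  · rw [h2, hev, e2]

theorem rel_s : gen .s = ev [.d, .q, .n] := by
  simp only [ev_cons, ev_nil, mul_one]
  apply ext9 <;> simp [mm0, gen]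

theorem rel_q : gen .q = ev [.d, .n, .s] := by
  simp only [ev_cons, ev_nil, mul_one]
  apply ext9 <;> simp [mm0, gen]

theorem rel_n : gen .n = ev [.d, .q, .s] := by
  simp only [ev_cons, ev_nil, mul_one]
  apply ext9 <;> simp [mm0, gen]

/-- The groups of signed permutation matrices containing the tetrahedral rotation group. -/
theorem cube_group {G : Set Mat} (hG : IsFinGroup G) (hc : gen .c ∈ G) (hd : gen .d ∈ G)
    (hp : ∀ M ∈ G, (∃ j, M *ᵥ pt6 0 = pt6 j) ∧ (∃ j, M *ᵥ pt6 1 = pt6 j) ∧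
      (∃ j, M *ᵥ pt6 2 = pt6 j)) :
    ∃ t : Tag, ∀ M : Mat, M ∈ G ↔ M ∈ t.group := by
  have hword : ∀ M ∈ G, ∃ w ∈ wT, ∃ l ∈ wL, M = ev (w ++ l) := by
    intro M hM
    obtain ⟨⟨i, hi⟩, ⟨j, hj⟩, ⟨k, hk⟩⟩ := hp M hM
    exact cube_word (hG.orth M hM) hi hj hk
  have hwG : ∀ w ∈ wT, ∀ l ∈ w, gen l ∈ G := by
    intro w hw l hl
    rcases wT_letters w hw l hl with rfl | rfl
    · exact hc
    · exact hd
  have hl4 : ∀ l ∈ wL, l = [] ∨ l = [.n] ∨ l = [.q] ∨ l = [.s] := by decide
  have hrs : gen .n ∈ G → gen .q ∈ G → gen .s ∈ G := by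
    intro h1 h2
    rw [rel_s]
    apply ev_mem hG
    intro l hl
    simp at hl
    rcases hl with rfl | rfl | rfl <;> assumption
  have hrq : gen .n ∈ G → gen .s ∈ G → gen .q ∈ G := by
    intro h1 h2
    rw [rel_q]
    apply ev_mem hG
    intro l hl
    simp at hl
    rcases hl with rfl | rfl | rfl <;> assumption
  have hrn : gen .q ∈ G → gen .s ∈ G → gen .n ∈ G := by
    intro h1 h2
    rw [rel_n]
    apply ev_mem hG
    intro l hl
    simp at hl
    rcases hl with rfl | rfl | rfl <;> assumption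
  have hmem : ∀ t : Tag, Letter.c ∈ t.letters → Letter.d ∈ t.letters →
      (∀ l ∈ t.letters, gen l ∈ G) →
      (∀ l ∈ wL, ev l ∈ G → ∃ l' : List Letter, (∀ x ∈ l', x ∈ t.letters) ∧ ev l = ev l') →
      ∀ M : Mat, M ∈ G ↔ M ∈ t.group := by
    intro t htc htd hlet hl M
    refine ⟨fun hM => ?_, fun hM => group_le hG hlet hM⟩
    obtain ⟨w, hw, l, hlL, rfl⟩ := hword M hM
    obtain ⟨l', hl', he⟩ := hl l hlL (ev_inv hG (hwG w hw) hM)
    rw [ev_append, he, ← ev_append]
    apply mem_ev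
    intro x hx
    rcases List.mem_append.mp hx with h | h
    · rcases wT_letters w hw x h with rfl | rfl
      · exact htc
      · exact htd
    · exact hl' x h
  by_cases hn : gen .n ∈ G
  · by_cases hq : gen .q ∈ G
    · refine ⟨.Oh, hmem .Oh (by decide) (by decide) ?_ ?_⟩
      · intro l hl
        simp [Tag.letters] at hl
        rcases hl with rfl | rfl | rfl | rfl <;> assumption
      · intro l hl _
        rcases hl4 l hl with rfl | rfl | rfl | rfl
        · exact ⟨[], by decide, rfl⟩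
        · exact ⟨[.n], by decide, rfl⟩
        · exact ⟨[.q], by decide, rfl⟩
        · exact ⟨[.d, .q, .n], by decide, by rw [ev_single, rel_s]⟩
    · refine ⟨.Th, hmem .Th (by decide) (by decide) ?_ ?_⟩
      · intro l hl
        simp [Tag.letters] at hl
        rcases hl with rfl | rfl | rfl <;> assumption
      · intro l hl hlG
        rcases hl4 l hl with rfl | rfl | rfl | rfl
        · exact ⟨[], by decide, rfl⟩
        · exact ⟨[.n], by decide, rfl⟩
        · rw [ev_single] at hlG; exact absurd hlG hq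
        · rw [ev_single] at hlG; exact absurd (hrq hn hlG) hq
  · by_cases hq : gen .q ∈ G
    · refine ⟨.O, hmem .O (by decide) (by decide) ?_ ?_⟩
      · intro l hl
        simp [Tag.letters] at hl
        rcases hl with rfl | rfl | rfl <;> assumption
      · intro l hl hlG
        rcases hl4 l hl with rfl | rfl | rfl | rfl
        · exact ⟨[], by decide, rfl⟩
        · rw [ev_single] at hlG; exact absurd hlG hn
        · exact ⟨[.q], by decide, rfl⟩
        · rw [ev_single] at hlG; exact absurd (hrn hq hlG) hn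
    · by_cases hs : gen .s ∈ G
      · refine ⟨.Td, hmem .Td (by decide) (by decide) ?_ ?_⟩
        · intro l hl
          simp [Tag.letters] at hl
          rcases hl with rfl | rfl | rfl <;> assumption
        · intro l hl hlG
          rcases hl4 l hl with rfl | rfl | rfl | rfl
          · exact ⟨[], by decide, rfl⟩
          · rw [ev_single] at hlG; exact absurd hlG hn
          · rw [ev_single] at hlG; exact absurd hlG hq
          · exact ⟨[.s], by decide, rfl⟩
      · refine ⟨.T, hmem .T (by decide) (by decide) ?_ ?_⟩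
        · intro l hl
          simp [Tag.letters] at hl
          rcases hl with rfl | rfl <;> assumption
        · intro l hl hlG
          rcases hl4 l hl with rfl | rfl | rfl | rfl
          · exact ⟨[], by decide, rfl⟩
          · rw [ev_single] at hlG; exact absurd hlG hn
          · rw [ev_single] at hlG; exact absurd hlG hq
          · rw [ev_single] at hlG; exact absurd hlG hs

end Pool.Agent.H70.FT
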