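import Pool.Agent.H70.FT.Words

/-!
The symmetries of the icosahedron: the twelve points and the words of the group.
-/

namespace Pool.Agent.H70.FT

open Matrix Pool.Agent.H38.FT

theorem gr_sq : gr ^ 2 = gr + 1 := Real.goldenRatio_sq

/-- Value of a pair `(a, b)`, the number `a + b gr`. -/
noncomputable def val (p : ℤ × ℤ) : ℝ := p.1 + p.2 * gr

/-- Product of pairs. -/
def pm (p q : ℤ × ℤ) : ℤ × ℤ := (p.1 * q.1 + p.2 * q.2, p.1 * q.2 + p.2 * q.1 + p.2 * q.2)

theorem val_pm (p q : ℤ × ℤ) : val (pm p q) = val p * val q := by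
  simp only [val, pm]
  push_cast
  linear_combination (-(p.2 : ℝ) * q.2) * gr_sq

theorem val_add (p q : ℤ × ℤ) : val (p + q) = val p + val q := by
  simp only [val, Prod.fst_add, Prod.snd_add]
  push_cast
  ring

/-- The twelve vertices of an icosahedron. -/
def P12 : Fin 12 → Fin 3 → ℤ × ℤ :=
  ![![(0, 0), (1, 0), (0, 1)],
    ![(0, 0), (-1, 0), (0, 1)],
    ![(0, 1), (0, 0), (1, 0)],
    ![(1, 0), (0, 1), (0, 0)],
    ![(0, 0), (1, 0), (0, -1)],
    ![(0, -1), (0, 0), (1, 0)],
    ![(1, 0), (0, -1), (0, 0)],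
    ![(0, 1), (0, 0), (-1, 0)],
    ![(-1, 0), (0, 1), (0, 0)],
    ![(0, 0), (-1, 0), (0, -1)],
    ![(0, -1), (0, 0), (-1, 0)],
    ![(-1, 0), (0, -1), (0, 0)]]

/-- The twelve vertices of an icosahedron. -/
noncomputable def pt12 (i : Fin 12) (m : Fin 3) : ℝ := val (P12 i m)

/-- The action of the letters on the twelve points. -/
def act12 : Letter → Fin 12 → Fin 12
  | .c => ![2, 7, 3, 0, 5, 6, 4, 8, 1, 10, 11, 9]
  | .d => ![9, 4, 7, 6, 1, 10, 3, 2, 11, 0, 5, 8]
  | .p => ![0, 2, 3, 8, 10, 1, 7, 4, 5, 9, 11, 6]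
  | .n => ![9, 4, 10, 11, 1, 7, 8, 5, 6, 0, 2, 3]
  | .q => id
  | .s => id

/-- Twice the generators. -/
def genz : Letter → Fin 3 → Fin 3 → ℤ × ℤ
  | .c => ![![(0, 0), (0, 0), (2, 0)], ![(2, 0), (0, 0), (0, 0)], ![(0, 0), (2, 0), (0, 0)]]
  | .d => ![![(2, 0), (0, 0), (0, 0)], ![(0, 0), (-2, 0), (0, 0)], ![(0, 0), (0, 0), (-2, 0)]]
  | .p => ![![(-1, 1), (0, -1), (1, 0)], ![(0, 1), (1, 0), (-1, 1)], ![(-1, 0), (-1, 1), (0, 1)]]
  | .n => ![![(-2, 0), (0, 0), (0, 0)], ![(0, 0), (-2, 0), (0, 0)], ![(0, 0), (0, 0), (-2, 0)]]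
  | .q => fun _ _ => (0, 0)
  | .s => fun _ _ => (0, 0)

theorem gen_val (l : Letter) (hl : l ≠ .q ∧ l ≠ .s) (i j : Fin 3) :
    gen l i j = val (genz l i j) / 2 := by
  cases l
  case q => exact absurd rfl hl.1
  case s => exact absurd rfl hl.2
  all_goals
    fin_cases i <;> fin_cases j <;> simp [gen, genz, val] <;> ring

/-- Twice the image of a vector. -/
def mulz (l : Letter) (v : Fin 3 → ℤ × ℤ) (m : Fin 3) : ℤ × ℤ :=
  pm (genz l m 0) (v 0) + pm (genz l m 1) (v 1) + pm (genz l m 2) (v 2)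

theorem check_act : ∀ l ∈ [Letter.c, .d, .p, .n], ∀ i : Fin 12, ∀ m : Fin 3,
    mulz l (P12 i) m = P12 (act12 l i) m + P12 (act12 l i) m := by
  decide

theorem gen_pt12 (l : Letter) (hl : l ≠ .q ∧ l ≠ .s) (i : Fin 12) :
    gen l *ᵥ pt12 i = pt12 (act12 l i) := by
  ext m
  have h : mulz l (P12 i) m = P12 (act12 l i) m + P12 (act12 l i) m := by
    apply check_act
    cases l <;> simp at hl ⊢
  have h2 := congrArg val h
  rw [val_add, mulz, val_add, val_add, val_pm, val_pm, val_pm] at h2
  rw [mv0, gen_val l hl, gen_val l hl, gen_val l hl]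
  simp only [pt12]
  linarith

/-- The inner product of two points as a pair. -/
def dz (i j : Fin 12) : ℤ × ℤ :=
  pm (P12 i 0) (P12 j 0) + pm (P12 i 1) (P12 j 1) + pm (P12 i 2) (P12 j 2)

theorem dt_pt12 (i j : Fin 12) : dt (pt12 i) (pt12 j) = val (dz i j) := by
  simp only [dt, pt12, dz, val_add, val_pm]

theorem dz_cases : ∀ i j : Fin 12, dz i j = (2, 1) ∨ dz i j = (0, 1) ∨ dz i j = (0, -1) ∨
    dz i j = (-2, -1) := by
  decide

theorem adj_of_dt {i j : Fin 12} (h : dt (pt12 i) (pt12 j) = gr) : dz i j = (0, 1) := by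
  rw [dt_pt12] at h
  have hg : 0 < gr := Real.goldenRatio_pos
  rcases dz_cases i j with e | e | e | e <;> rw [e] at h <;> simp [val] at h
  · exact e
  · linarith
  · linarith

/-- The words of the 120 symmetries, by the images of the first three points. -/
def tb : List (ℕ × List Letter × Bool) :=
  [(14, [], false),
   (17, [.d], true),
   (25, [.p, .d], true),
   (27, [.p], false),
   (38, [.p, .p, .d], true),
   (44, [.p, .p], false),
   (61, [.c, .p, .c], false),
   (68, [.d, .p], true),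
   (99, [.d, .p, .p], true),
   (101, [.p, .p, .p], false),
   (146, [.c, .d, .c, .c], true),
   (149, [.c, .c, .d, .c], false),
   (168, [.p, .p, .p, .c, .c], false),
   (174, [.c, .d, .c, .c, .p], true),
   (204, [.c, .d, .p, .c], true),
   (215, [.p, .p, .c, .d, .c], false),
   (218, [.c, .p, .c, .c], false),
   (227, [.d, .c, .p, .p, .c], true),
   (281, [.p, .d, .c], true),
   (282, [.c, .p, .p, .c], false),
   (289, [.c, .p, .p], false),
   (291, [.c, .p, .p, .d], true),
   (300, [.c, .d, .p, .p], true),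
   (306, [.c, .p, .p, .p], false),
   (324, [.c, .p], false),
   (331, [.c, .p, .d], true),
   (361, [.c, .d, .p], true),
   (367, [.c, .c, .p, .c], false),
   (375, [.c], false),
   (378, [.c, .d], true),
   (434, [.c, .c, .p], false),
   (440, [.c, .c, .p, .d], true),
   (456, [.d, .p, .c, .c], true),
   (463, [.c, .c, .p, .p], false),
   (487, [.p, .c, .d], true),
   (488, [.p, .c], false),
   (518, [.d, .p, .p, .c], true),
   (520, [.p, .c, .c, .p, .c], false),
   (528, [.c, .c], false),
   (532, [.c, .c, .d], true),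
   (619, [.p, .d, .c], false),
   (620, [.c, .p, .p, .c], true),
   (663, [.p, .p, .c, .d, .c], true),
   (669, [.c, .d, .p, .c], false),
   (675, [.d, .c, .p, .p, .c], false),
   (682, [.c, .p, .c, .c], true),
   (691, [.c, .c, .d, .c], true),
   (694, [.c, .d, .c, .c], false),
   (704, [.c, .d, .c, .c, .p], false),
   (705, [.p, .p, .p, .c, .c], true),
   (721, [.d, .c, .p, .p], true),
   (728, [.c, .p, .d, .c], false),
   (732, [.p, .p, .c, .c], false),
   (743, [.c, .c, .p, .c, .c], true),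
   (816, [.d, .c, .p], true),
   (826, [.p, .c, .d, .c], false),
   (848, [.d, .c], true),
   (851, [.d, .c, .d], false),
   (853, [.p, .p, .p, .c], false),
   (862, [.d, .c, .c, .p, .c], true),
   (878, [.d, .p, .c, .d], true),
   (887, [.d, .p, .c], false),
   (889, [.p, .p, .c, .d], false),
   (895, [.p, .p, .c], true),
   (950, [.p, .c, .c, .d], false),
   (957, [.p, .c, .c], true),
   (979, [.d, .c, .c, .p], false),
   (983, [.p, .c, .c, .p], true),
   (997, [.c, .d, .c], true),
   (1005, [.d, .c, .c], false),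
   (1035, [.d, .c, .d], true),
   (1038, [.d, .c], false),
   (1046, [.d, .c, .c, .p, .c], false),
   (1048, [.p, .p, .p, .c], true),
   (1059, [.c, .c, .p, .c, .c], false),
   (1065, [.p, .p, .c, .c], true),
   (1082, [.p, .c, .d, .c], true),
   (1089, [.d, .c, .p], false),
   (1120, [.d, .c, .p, .p], false),
   (1122, [.c, .p, .d, .c], true),
   (1155, [.p, .c, .c, .p], false),
   (1157, [.d, .c, .c, .p], true),
   (1188, [.d, .c, .c], true),
   (1192, [.c, .d, .c], false),
   (1203, [.d, .p, .c], true),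
   (1210, [.d, .p, .c, .d], false),
   (1212, [.p, .c, .c], false),
   (1222, [.p, .c, .c, .d], true),
   (1276, [.p, .p, .c, .d], true),
   (1277, [.p, .p, .c], false),
   (1351, [.d], false),
   (1354, [], true),
   (1375, [.p, .p, .p], true),
   (1379, [.d, .p, .p], false),
   (1384, [.c, .p, .c], true),
   (1386, [.d, .p], false),
   (1420, [.p, .d], false),
   (1427, [.p], true),
   (1434, [.p, .p], true),
   (1438, [.p, .p, .d], false),
   (1496, [.c, .p, .p, .p], true),
   (1497, [.c, .d, .p, .p], false),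
   (1508, [.c, .d], false),
   (1511, [.c], true),
   (1540, [.c, .d, .p], false),
   (1541, [.c, .c, .p, .c], true),
   (1552, [.c, .p, .p], true),
   (1559, [.c, .p, .p, .d], false),
   (1577, [.c, .p, .d], false),
   (1581, [.c, .p], true),
   (1601, [.p, .c, .d], false),
   (1602, [.p, .c], true),
   (1645, [.p, .c, .c, .p, .c], true),
   (1654, [.d, .p, .p, .c], false),
   (1657, [.c, .c, .d], false),
   (1665, [.c, .c], true),
   (1698, [.c, .c, .p, .d], false),
   (1702, [.c, .c, .p], true),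
   (1709, [.c, .c, .p, .p], true),
   (1713, [.d, .p, .c, .c], false)]
/-- The letters of an entry of the table. -/
def wd (x : List Letter × Bool) : List Letter := x.1 ++ if x.2 then [.n] else []

theorem tb_letters : ∀ x ∈ tb, ∀ l ∈ x.2.1, l = .c ∨ l = .d ∨ l = .p := by decide

/-- Search in the table. -/
def look (n : ℕ) : List (ℕ × List Letter × Bool) → List Letter × Bool
  | [] => ([], false)
  | x :: xs => if x.1 = n then x.2 else look n xs

theorem look_mem (n : ℕ) (L : List (ℕ × List Letter × Bool)) :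
    look n L = ([], false) ∨ ∃ x ∈ L, look n L = x.2 := by
  induction L with
  | nil => left; rfl
  | cons x xs ih =>
    by_cases h : x.1 = n
    · right
      exact ⟨x, List.mem_cons_self, by simp [look, h]⟩
    · rcases ih with h2 | ⟨y, hy, h2⟩
      · left; simp [look, h, h2]
      · right; exact ⟨y, List.mem_cons_of_mem _ hy, by simp [look, h, h2]⟩

set_option maxRecDepth 100000 in
theorem enum12 : ∀ i j k : Fin 12, dz i j = (0, 1) → dz i k = (0, 1) → dz j k = (0, 1) →
    actw act12 (wd (look (i.1 * 144 + j.1 * 12 + k.1) tb)) 0 = i ∧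
    actw act12 (wd (look (i.1 * 144 + j.1 * 12 + k.1) tb)) 1 = j ∧
    actw act12 (wd (look (i.1 * 144 + j.1 * 12 + k.1) tb)) 2 = k := by
  decide

end Pool.Agent.H70.FT
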