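import Pool.Agent.H70.FT.Ico
import Pool.Agent.H70.FT.Angle

/-!
The groups of symmetries of the icosahedron containing the rotations.
-/

namespace Pool.Agent.H70.FT

open Matrix Pool.Agent.H38.FT

theorem p0 : pt12 0 0 = 0 ∧ pt12 0 1 = 1 ∧ pt12 0 2 = gr := by simp [pt12, P12, val]
theorem p1 : pt12 1 0 = 0 ∧ pt12 1 1 = -1 ∧ pt12 1 2 = gr := by simp [pt12, P12, val]
theorem p2 : pt12 2 0 = gr ∧ pt12 2 1 = 0 ∧ pt12 2 2 = 1 := by simp [pt12, P12, val]
theorem p3 : pt12 3 0 = 1 ∧ pt12 3 1 = gr ∧ pt12 3 2 = 0 := by simp [pt12, P12, val]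
theorem p5 : pt12 5 0 = -gr ∧ pt12 5 1 = 0 ∧ pt12 5 2 = 1 := by simp [pt12, P12, val]
theorem p7 : pt12 7 0 = gr ∧ pt12 7 1 = 0 ∧ pt12 7 2 = -1 := by simp [pt12, P12, val]
theorem p8 : pt12 8 0 = -1 ∧ pt12 8 1 = gr ∧ pt12 8 2 = 0 := by simp [pt12, P12, val]

theorem pt12_opp (i : Fin 12) : pt12 (act12 .n i) = -pt12 i := by
  rw [← gen_pt12 .n (by decide)]
  apply ext3 <;> simp [mv0, gen]

theorem det12 : pt12 0 0 * (pt12 1 1 * pt12 2 2 - pt12 1 2 * pt12 2 1) -
    pt12 0 1 * (pt12 1 0 * pt12 2 2 - pt12 1 2 * pt12 2 0) +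
    pt12 0 2 * (pt12 1 0 * pt12 2 1 - pt12 1 1 * pt12 2 0) ≠ 0 := by
  rw [p0.1, p0.2.1, p0.2.2, p1.1, p1.2.1, p1.2.2, p2.1, p2.2.1, p2.2.2]
  have h : 0 < gr := Real.goldenRatio_pos
  intro h0
  nlinarith [mul_pos h h]

theorem ico_word {M : Mat} (hM : Mᵀ * M = 1) {i j k : Fin 12} (h0 : M *ᵥ pt12 0 = pt12 i)
    (h1 : M *ᵥ pt12 1 = pt12 j) (h2 : M *ᵥ pt12 2 = pt12 k) :
    ∃ x : List Letter × Bool, (∀ l ∈ x.1, l = .c ∨ l = .d ∨ l = .p) ∧ M = ev (wd x) := by
  have d01 : dt (pt12 0) (pt12 1) = gr := by rw [dt_pt12]; simp [dz, pm, P12, val]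
  have d02 : dt (pt12 0) (pt12 2) = gr := by rw [dt_pt12]; simp [dz, pm, P12, val]
  have d12 : dt (pt12 1) (pt12 2) = gr := by rw [dt_pt12]; simp [dz, pm, P12, val]
  have o01 := adj_of_dt (i := i) (j := j) (by rw [← h0, ← h1, dt_mul hM, d01])
  have o02 := adj_of_dt (i := i) (j := k) (by rw [← h0, ← h2, dt_mul hM, d02])
  have o12 := adj_of_dt (i := j) (j := k) (by rw [← h1, ← h2, dt_mul hM, d12])
  obtain ⟨e0, e1, e2⟩ := enum12 i j k o01 o02 o12
  have hlook : ∀ l ∈ (look (i.1 * 144 + j.1 * 12 + k.1) tb).1, l = .c ∨ l = .d ∨ l = .p := by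
    rcases look_mem (i.1 * 144 + j.1 * 12 + k.1) tb with h | ⟨x, hx, h⟩
    · rw [h]; intro l hl; simp at hl
    · rw [h]; exact tb_letters x hx
  refine ⟨look (i.1 * 144 + j.1 * 12 + k.1) tb, hlook, ?_⟩
  generalize look (i.1 * 144 + j.1 * 12 + k.1) tb = x at *
  have hP : ∀ l ∈ wd x, l ≠ Letter.q ∧ l ≠ Letter.s := by
    intro l hl
    rcases List.mem_append.mp hl with h | h
    · rcases hlook l h with rfl | rfl | rfl <;> decide
    · cases hb : x.2 with
      | false => rw [hb] at h; simp at h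
      | true => rw [hb] at h; simp at h; subst h; decide
  have hev := ev_act pt12 act12 (fun l => l ≠ Letter.q ∧ l ≠ Letter.s) gen_pt12 (wd x) hP
  refine det_three (u := pt12 0) (v := pt12 1) (w := pt12 2) det12 ?_ ?_ ?_
  · rw [h0, hev, e0]
  · rw [h1, hev, e1]
  · rw [h2, hev, e2]

/-- The groups of symmetries of the icosahedron containing the rotations. -/
theorem ico_group {G : Set Mat} (hG : IsFinGroup G) (hc : gen .c ∈ G) (hd : gen .d ∈ G)
    (hpp : gen .p ∈ G)
    (hp : ∀ M ∈ G, (∃ j, M *ᵥ pt12 0 = pt12 j) ∧ (∃ j, M *ᵥ pt12 1 = pt12 j) ∧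
      (∃ j, M *ᵥ pt12 2 = pt12 j)) :
    ∃ t : Tag, ∀ M : Mat, M ∈ G ↔ M ∈ t.group := by
  have hword : ∀ M ∈ G, ∃ x : List Letter × Bool, (∀ l ∈ x.1, l = .c ∨ l = .d ∨ l = .p) ∧
      M = ev (wd x) := by
    intro M hM
    obtain ⟨⟨i, hi⟩, ⟨j, hj⟩, ⟨k, hk⟩⟩ := hp M hM
    exact ico_word (hG.orth M hM) hi hj hk
  by_cases hn : gen .n ∈ G
  · refine ⟨.Ih, fun M => ⟨fun hM => ?_, fun hM => group_le hG ?_ hM⟩⟩
    · obtain ⟨x, hx, rfl⟩ := hword M hM
      apply mem_ev
      intro l hl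
      rcases List.mem_append.mp hl with h | h
      · rcases hx l h with rfl | rfl | rfl <;> decide
      · cases hb : x.2 with
        | false => rw [hb] at h; simp at h
        | true => rw [hb] at h; simp at h; subst h; decide
    · intro l hl
      simp [Tag.letters] at hl
      rcases hl with rfl | rfl | rfl | rfl <;> assumption
  · refine ⟨.I, fun M => ⟨fun hM => ?_, fun hM => group_le hG ?_ hM⟩⟩
    · obtain ⟨x, hx, rfl⟩ := hword M hM
      cases hb : x.2 with
      | false =>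
        apply mem_ev
        intro l hl
        unfold wd at hl
        rw [hb] at hl
        simp at hl
        rcases hx l hl with rfl | rfl | rfl <;> decide
      | true =>
        exfalso
        apply hn
        unfold wd at hM
        rw [hb] at hM
        simp only [if_true] at hM
        have := ev_inv hG (fun l hl => by
          rcases hx l hl with rfl | rfl | rfl <;> assumption) hM
        rwa [ev_single] at this
    · intro l hl
      simp [Tag.letters] at hl
      rcases hl with rfl | rfl | rfl <;> assumption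

/-- The rotation about the third point. -/
noncomputable def E2 : Mat :=
  !![gr / 2, -1 / 2, (gr - 1) / 2; 1 / 2, (gr - 1) / 2, -gr / 2; (gr - 1) / 2, gr / 2, 1 / 2]

/-- The rotation about the eighth point. -/
noncomputable def E7 : Mat :=
  !![gr / 2, 1 / 2, (1 - gr) / 2; -1 / 2, (gr - 1) / 2, -gr / 2; (1 - gr) / 2, gr / 2, 1 / 2]

theorem c_eq : gen .c = gen .p * E2 := by
  have h := gr_sq
  apply ext9 <;> simp only [mm0] <;> simp [gen, E2] <;>
    first
      | ring1
      | linear_combination (1 / 4 : ℝ) * h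
      | linear_combination (-1 / 4 : ℝ) * h
      | linear_combination (1 / 2 : ℝ) * h
      | linear_combination (-1 / 2 : ℝ) * h
      | linear_combination (3 / 4 : ℝ) * h
      | linear_combination (-3 / 4 : ℝ) * h

theorem e27 : E2 * E7 = !![gr / 2, 1 / 2, (gr - 1) / 2; 1 / 2, (1 - gr) / 2, -gr / 2;
    (1 - gr) / 2, gr / 2, -1 / 2] := by
  have h := gr_sq
  apply ext9 <;> simp only [mm0] <;> simp [E7, E2] <;>
    first
      | ring1
      | linear_combination (1 / 4 : ℝ) * h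
      | linear_combination (-1 / 4 : ℝ) * h
      | linear_combination (1 / 2 : ℝ) * h
      | linear_combination (-1 / 2 : ℝ) * h
      | linear_combination (3 / 4 : ℝ) * h
      | linear_combination (-3 / 4 : ℝ) * h

theorem d_eq : gen .d = E7 * (E2 * E7) := by
  rw [e27]
  have h := gr_sq
  apply ext9 <;> simp only [mm0] <;> simp [gen, E7] <;>
    first
      | ring1
      | linear_combination (1 / 4 : ℝ) * h
      | linear_combination (-1 / 4 : ℝ) * h
      | linear_combination (1 / 2 : ℝ) * h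
      | linear_combination (-1 / 2 : ℝ) * h
      | linear_combination (3 / 4 : ℝ) * h
      | linear_combination (-3 / 4 : ℝ) * h

end Pool.Agent.H70.FT
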