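import Pool.Agent.H70.FT.Cube
import Pool.Agent.H70.FT.Frame

/-!
The cases with orthogonal poles.
-/

namespace Pool.Agent.H70.FT

open Matrix Pool.Agent.H38.FT

variable {G : Set Mat} {x s : ℝ}

theorem q0 : pt6 0 = ![1, 0, 0] := rfl
theorem q1 : pt6 1 = ![0, 1, 0] := rfl
theorem q2 : pt6 2 = ![0, 0, 1] := rfl
theorem q3 : pt6 3 = ![-1, 0, 0] := rfl
theorem q4 : pt6 4 = ![0, -1, 0] := rfl
theorem q5 : pt6 5 = ![0, 0, -1] := rfl

theorem n03 : -pt6 0 = pt6 3 := by rw [← pt6_opp]; rfl
theorem n14 : -pt6 1 = pt6 4 := by rw [← pt6_opp]; rfl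
theorem n25 : -pt6 2 = pt6 5 := by rw [← pt6_opp]; rfl

theorem dt0 (v : Fin 3 → ℝ) : dt (pt6 0) v = v 0 := by simp [dt, q0]
theorem dt1 (v : Fin 3 → ℝ) : dt (pt6 1) v = v 1 := by simp [dt, q1]
theorem dt2 (v : Fin 3 → ℝ) : dt (pt6 2) v = v 2 := by simp [dt, q2]

theorem dt3 (v : Fin 3 → ℝ) : dt (pt6 3) v = -v 0 := by simp [dt, q3]
theorem dt4 (v : Fin 3 → ℝ) : dt (pt6 4) v = -v 1 := by simp [dt, q4]

theorem two_zero {v : Fin 3 → ℝ} (hv : dt v v = 1) (h0 : v 0 = 0) (h1 : v 1 = 0) :
    v = pt6 2 ∨ v = pt6 5 := by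
  simp only [dt, h0, h1] at hv
  have h2 : (v 2 - 1) * (v 2 + 1) = 0 := by linarith
  rcases mul_eq_zero.mp h2 with h | h
  · left
    apply ext3
    · rw [h0]; simp [q2]
    · rw [h1]; simp [q2]
    · simp [q2]; linarith
  · right
    apply ext3
    · rw [h0]; simp [q5]
    · rw [h1]; simp [q5]
    · simp [q5]; linarith

theorem pole_std (horth : ∀ v w, Pole G x s v → Pole G x s w → w ≠ v → w ≠ -v → dt v w = 0)
    (h0 : Pole G x s (pt6 0)) (h1 : Pole G x s (pt6 1)) {v : Fin 3 → ℝ} (hv : Pole G x s v) :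
    v = pt6 0 ∨ v = pt6 3 ∨ v = pt6 1 ∨ v = pt6 4 ∨ v = pt6 2 ∨ v = pt6 5 := by
  by_cases c0 : v = pt6 0
  · exact Or.inl c0
  by_cases c3 : v = pt6 3
  · exact Or.inr (Or.inl c3)
  by_cases c1 : v = pt6 1
  · exact Or.inr (Or.inr (Or.inl c1))
  by_cases c4 : v = pt6 4
  · exact Or.inr (Or.inr (Or.inr (Or.inl c4)))
  have e0 := horth _ _ h0 hv c0 (by rw [n03]; exact c3)
  have e1 := horth _ _ h1 hv c1 (by rw [n14]; exact c4)
  rw [dt0] at e0
  rw [dt1] at e1
  exact Or.inr (Or.inr (Or.inr (Or.inr (two_zero hv.1 e0 e1))))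

theorem pole_pt (horth : ∀ v w, Pole G x s v → Pole G x s w → w ≠ v → w ≠ -v → dt v w = 0)
    (h0 : Pole G x s (pt6 0)) (h1 : Pole G x s (pt6 1)) {v : Fin 3 → ℝ} (hv : Pole G x s v) :
    ∃ j, v = pt6 j := by
  rcases pole_std horth h0 h1 hv with h | h | h | h | h | h <;> exact ⟨_, h⟩

theorem orth_frame (hG : IsFinGroup G) {a b : Fin 3 → ℝ} (ha : Pole G x s a) (hb : Pole G x s b)
    (hab : dt a b = 0) :
    ∃ U : Mat, Uᵀ * U = 1 ∧ Pole (cj G U) x s (pt6 0) ∧ Pole (cj G U) x s (pt6 1) := by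
  obtain ⟨U, hU, h0, h1⟩ := frame (a := a) (b := b) (a0 := pt6 0) (b0 := pt6 1) ha.1 hb.1
    (dt_pt6 0) (dt_pt6 1) (by rw [hab]; simp [dt, pt6]) (by rw [hab]; norm_num)
  exact ⟨U, hU, cj_pole hG hU (by rw [h0]; exact ha), cj_pole hG hU (by rw [h1]; exact hb)⟩

theorem rot_e1 : rot (pt6 0) 0 1 = !![1, 0, 0; 0, 0, -1; 0, 1, 0] := by
  apply ext9 <;> simp [rot, q0]

theorem rot_e3 : rot (pt6 2) 0 1 = gen .q := by
  apply ext9 <;> simp [rot, q2, gen]

/-- The case of quarter-turns. -/
theorem case_0 (hG : IsFinGroup G) (hD : Dat G 0 s) (h0 : Pole G 0 s (pt6 0))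
    (h1 : Pole G 0 s (pt6 1)) : ∃ t : Tag, ∀ M : Mat, M ∈ G ↔ M ∈ t.group := by
  have hs1 : s = 1 := by
    have := hD.hs
    have h2 : (s - 1) * (s + 1) = 0 := by linear_combination this
    rcases mul_eq_zero.mp h2 with h | h
    · linarith
    · have := hD.s0
      linarith
  subst hs1
  have horth : ∀ v w, Pole G 0 1 v → Pole G 0 1 w → w ≠ v → w ≠ -v → dt v w = 0 := by
    intro v w hv hw c1 c2
    rcases le_total 0 (dt v w) with h | h
    · exact ang_0 hG hD hv hw c1 c2 h
    · have := ang_0 hG hD hv (hw.neg hG) (fun e => c2 (by rw [← e, neg_neg]))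
        (fun e => c1 (neg_injective e)) (by rw [dt_neg_right]; linarith)
      rw [dt_neg_right] at this
      linarith
  have h2 : Pole G 0 1 (pt6 2) := by
    have := h1.map hG h0.2
    have e : rot (pt6 0) 0 1 *ᵥ pt6 1 = pt6 2 := by
      rw [rot_e1]
      apply ext3 <;> simp [mv0, q1, q2]
    rwa [e] at this
  have hq : gen .q ∈ G := by rw [← rot_e3]; exact h2.2
  have hc : gen .c ∈ G := by
    have : gen .c = gen .q * rot (pt6 0) 0 1 := by
      rw [rot_e1]
      apply ext9 <;> simp [mm0, gen]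
    rw [this]
    exact hG.mul _ hq _ h0.2
  have hd : gen .d ∈ G := by
    have : gen .d = rot (pt6 0) 0 1 * rot (pt6 0) 0 1 := by
      rw [rot_e1]
      apply ext9 <;> simp [mm0, gen]
    rw [this]
    exact hG.mul _ h0.2 _ h0.2
  refine cube_group hG hc hd ?_
  intro M hM
  exact ⟨pole_pt horth h0 h1 (h0.map hG hM), pole_pt horth h0 h1 (h1.map hG hM),
    pole_pt horth h0 h1 (h2.map hG hM)⟩

/-- `M` permutes the coordinate axes by `σ`. -/
def Ax (M : Mat) (σ : Fin 3 → Fin 3) : Prop :=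
  ∀ i j : Fin 3, j ≠ σ i → M j i = 0

theorem Ax.mul {M N : Mat} {σ τ : Fin 3 → Fin 3} (hM : Ax M σ) (hN : Ax N τ) :
    Ax (M * N) (fun i => σ (τ i)) := by
  intro i j hj
  rw [Matrix.mul_apply]
  apply Finset.sum_eq_zero
  intro k _
  by_cases hk : k = τ i
  · rw [hM k j (by rw [hk]; exact hj), zero_mul]
  · rw [hN i k hk, mul_zero]

theorem Ax.inj {M : Mat} {σ : Fin 3 → Fin 3} (hM : Ax M σ) (ho : Mᵀ * M = 1) (i j : Fin 3)
    (hij : i ≠ j) : σ i ≠ σ j := by
  intro h
  have h1 := orth_col ho i j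
  rw [if_neg hij] at h1
  have h2 := orth_col ho i i
  have h3 := orth_col ho j j
  rw [if_pos rfl] at h2 h3
  have key : ∀ l : Fin 3, (∀ m : Fin 3, m ≠ l → M m i = 0) → (∀ m : Fin 3, m ≠ l → M m j = 0) →
      False := by
    intro l hi hj
    fin_cases l
    · have a1 := hi 1 (by decide)
      have a2 := hi 2 (by decide)
      have b1 := hj 1 (by decide)
      have b2 := hj 2 (by decide)
      simp only [a1, a2, b1, b2, mul_zero, add_zero] at h1 h2 h3
      rcases mul_eq_zero.mp h1 with h | h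
      · rw [h] at h2; norm_num at h2
      · rw [h] at h3; norm_num at h3
    · have a1 := hi 0 (by decide)
      have a2 := hi 2 (by decide)
      have b1 := hj 0 (by decide)
      have b2 := hj 2 (by decide)
      simp only [a1, a2, b1, b2, mul_zero, add_zero, zero_add] at h1 h2 h3
      rcases mul_eq_zero.mp h1 with h | h
      · rw [h] at h2; norm_num at h2
      · rw [h] at h3; norm_num at h3
    · have a1 := hi 0 (by decide)
      have a2 := hi 1 (by decide)
      have b1 := hj 0 (by decide)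
      have b2 := hj 1 (by decide)
      simp only [a1, a2, b1, b2, mul_zero, add_zero, zero_add] at h1 h2 h3
      rcases mul_eq_zero.mp h1 with h | h
      · rw [h] at h2; norm_num at h2
      · rw [h] at h3; norm_num at h3
  exact key (σ i) (fun m hm => hM i m hm) (fun m hm => hM j m (by rw [← h]; exact hm))

/-- The function with values `a`, `b`, `c`. -/
def pf (a b c : Fin 3) : Fin 3 → Fin 3 := ![a, b, c]

/-- No fixed point. -/
def nofix (σ : Fin 3 → Fin 3) : Bool := (σ 0 != 0) && (σ 1 != 1) && (σ 2 != 2)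

/-- The values are different. -/
def dif (a b c : Fin 3) : Bool := (a != b) && (a != c) && (b != c)

theorem perm_check : ∀ a b c : Fin 3, dif a b c = true → a ≠ 0 → ∀ f : Fin 3, pf a b c f = f →
    ∀ a' b' c' : Fin 3, dif a' b' c' = true → pf a' b' c' f ≠ f →
    (nofix (pf a' b' c') || nofix (fun i => pf a b c (pf a' b' c' i))) = true := by
  decide

theorem perm_fix : ∀ a b c : Fin 3, dif a b c = true → nofix (pf a b c) = false →
    ∃ f, pf a b c f = f := by
  decide

theorem perm_sq : ∀ a b c : Fin 3, dif a b c = true → nofix (pf a b c) = true →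
    ∀ i, pf a b c (pf a b c i) ≠ i := by
  decide

theorem vec_eta (σ : Fin 3 → Fin 3) : σ = pf (σ 0) (σ 1) (σ 2) := by
  ext i
  fin_cases i <;> rfl

theorem Ax.dif {M : Mat} {σ : Fin 3 → Fin 3} (hM : Ax M σ) (ho : Mᵀ * M = 1) :
    dif (σ 0) (σ 1) (σ 2) = true := by
  have h01 := hM.inj ho 0 1 (by decide)
  have h02 := hM.inj ho 0 2 (by decide)
  have h12 := hM.inj ho 1 2 (by decide)
  simp [Pool.Agent.H70.FT.dif, h01, h02, h12]

/-- The case where all rotations are half-turns does not occur. -/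
theorem case_m1 (hG : IsFinGroup G)
    (hirr : ∀ a : Fin 3 → ℝ, a ≠ 0 → ∃ A ∈ G, A *ᵥ a ≠ a ∧ A *ᵥ a ≠ -a)
    (hD : Dat G (-1) s) (h0 : Pole G (-1) s (pt6 0)) (h1 : Pole G (-1) s (pt6 1)) : False := by
  have horth : ∀ v w, Pole G (-1) s v → Pole G (-1) s w → w ≠ v → w ≠ -v → dt v w = 0 :=
    fun v w hv hw c1 c2 => ang_m1 hG hD hv hw c1 c2
  have hne : ∀ i, pt6 i ≠ 0 := by
    intro i h
    have := dt_pt6 i
    rw [h] at this
    simp [dt] at this
  -- the third axis is a pole
  have h2 : Pole G (-1) s (pt6 2) := by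
    obtain ⟨M, hM, m1, m2⟩ := hirr (pt6 2) (hne 2)
    have a0 := pole_std horth h0 h1 (h0.map hG hM)
    have a1 := pole_std horth h0 h1 (h1.map hG hM)
    have key : M *ᵥ pt6 0 = pt6 2 ∨ M *ᵥ pt6 0 = pt6 5 ∨ M *ᵥ pt6 1 = pt6 2 ∨
        M *ᵥ pt6 1 = pt6 5 := by
      by_contra hcon
      push_neg at hcon
      obtain ⟨c1, c2, c3, c4⟩ := hcon
      have o := hG.orth M hM
      have o01 : dt (M *ᵥ pt6 0) (M *ᵥ pt6 1) = 0 := by rw [dt_mul o]; simp [dt, pt6]
      have o02 : dt (M *ᵥ pt6 0) (M *ᵥ pt6 2) = 0 := by rw [dt_mul o]; simp [dt, pt6]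
      have o12 : dt (M *ᵥ pt6 1) (M *ᵥ pt6 2) = 0 := by rw [dt_mul o]; simp [dt, pt6]
      have o22 : dt (M *ᵥ pt6 2) (M *ᵥ pt6 2) = 1 := by rw [dt_mul o]; simp [dt, pt6]
      have hz : (M *ᵥ pt6 2) 0 = 0 ∧ (M *ᵥ pt6 2) 1 = 0 := by
        rcases a0 with h | h | h | h | h | h
        · rcases a1 with g | g | g | g | g | g
          · rw [h, g] at o01; simp [dt, pt6] at o01
          · rw [h, g] at o01; simp [dt, pt6] at o01
          · rw [h] at o02; rw [g] at o12
            simp only [dt0, dt1, dt3, dt4] at o02 o12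
            exact ⟨by linarith, by linarith⟩
          · rw [h] at o02; rw [g] at o12
            simp only [dt0, dt1, dt3, dt4] at o02 o12
            exact ⟨by linarith, by linarith⟩
          · exact absurd g c3
          · exact absurd g c4
        · rcases a1 with g | g | g | g | g | g
          · rw [h, g] at o01; simp [dt, pt6] at o01
          · rw [h, g] at o01; simp [dt, pt6] at o01
          · rw [h] at o02; rw [g] at o12
            simp only [dt0, dt1, dt3, dt4] at o02 o12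
            exact ⟨by linarith, by linarith⟩
          · rw [h] at o02; rw [g] at o12
            simp only [dt0, dt1, dt3, dt4] at o02 o12
            exact ⟨by linarith, by linarith⟩
          · exact absurd g c3
          · exact absurd g c4
        · rcases a1 with g | g | g | g | g | g
          · rw [h] at o02; rw [g] at o12
            simp only [dt0, dt1, dt3, dt4] at o02 o12
            exact ⟨by linarith, by linarith⟩
          · rw [h] at o02; rw [g] at o12
            simp only [dt0, dt1, dt3, dt4] at o02 o12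
            exact ⟨by linarith, by linarith⟩
          · rw [h, g] at o01; simp [dt, pt6] at o01
          · rw [h, g] at o01; simp [dt, pt6] at o01
          · exact absurd g c3
          · exact absurd g c4
        · rcases a1 with g | g | g | g | g | g
          · rw [h] at o02; rw [g] at o12
            simp only [dt0, dt1, dt3, dt4] at o02 o12
            exact ⟨by linarith, by linarith⟩
          · rw [h] at o02; rw [g] at o12
            simp only [dt0, dt1, dt3, dt4] at o02 o12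
            exact ⟨by linarith, by linarith⟩
          · rw [h, g] at o01; simp [dt, pt6] at o01
          · rw [h, g] at o01; simp [dt, pt6] at o01
          · exact absurd g c3
          · exact absurd g c4
        · exact absurd h c1
        · exact absurd h c2
      rcases two_zero o22 hz.1 hz.2 with h | h
      · exact m1 h
      · exact m2 (by rw [n25]; exact h)
    have n52 : -pt6 5 = pt6 2 := by rw [← n25, neg_neg]
    rcases key with h | h | h | h
    · rw [← h]; exact h0.map hG hM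
    · rw [← n52, ← h]; exact (h0.map hG hM).neg hG
    · rw [← h]; exact h1.map hG hM
    · rw [← n52, ← h]; exact (h1.map hG hM).neg hG
  -- every matrix permutes the axes
  have hcol : ∀ M : Mat, ∀ i : Fin 3, M *ᵥ pt6 ⟨i.1, by omega⟩ = fun j => M j i := by
    intro M i
    fin_cases i <;> ext j <;> simp [mv0, pt6]
  have hax : ∀ M ∈ G, ∃ σ, Ax M σ := by
    intro M hM
    have hi : ∀ i : Fin 3, ∃ k : Fin 3, ∀ j, j ≠ k → M j i = 0 := by
      intro i
      have hp : Pole G (-1) s (M *ᵥ pt6 ⟨i.1, by omega⟩) := by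
        fin_cases i
        · exact h0.map hG hM
        · exact h1.map hG hM
        · exact h2.map hG hM
      have hs := pole_std horth h0 h1 hp
      rw [hcol] at hs
      have hval : ∀ l : Fin 6, (fun j => M j i) = pt6 l → ∀ j, M j i = pt6 l j :=
        fun l h j => congrFun h j
      rcases hs with h | h | h | h | h | h
      · exact ⟨0, fun j hj => by rw [hval _ h]; fin_cases j <;> simp [pt6] at hj ⊢⟩
      · exact ⟨0, fun j hj => by rw [hval _ h]; fin_cases j <;> simp [pt6] at hj ⊢⟩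
      · exact ⟨1, fun j hj => by rw [hval _ h]; fin_cases j <;> simp [pt6] at hj ⊢⟩
      · exact ⟨1, fun j hj => by rw [hval _ h]; fin_cases j <;> simp [pt6] at hj ⊢⟩
      · exact ⟨2, fun j hj => by rw [hval _ h]; fin_cases j <;> simp [pt6] at hj ⊢⟩
      · exact ⟨2, fun j hj => by rw [hval _ h]; fin_cases j <;> simp [pt6] at hj ⊢⟩
    choose σ hσ using hi
    exact ⟨σ, fun i j hj => hσ i j hj⟩
  -- no cyclic permutation of the axes
  have hno : ∀ M ∈ G, ∀ σ, Ax M σ → nofix σ = false := by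
    intro M hM σ hσ
    by_contra hcon
    have hn : nofix σ = true := by simpa using hcon
    have hdif := hσ.dif (hG.orth M hM)
    rw [vec_eta σ] at hn
    have hsq := perm_sq _ _ _ hdif hn
    rw [← vec_eta σ] at hsq
    have hMM := hσ.mul hσ
    have htr : (M * M).trace = 0 := by
      simp only [Matrix.trace, Fin.sum_univ_three, Matrix.diag_apply]
      rw [hMM 0 0 (fun e => hsq 0 e.symm), hMM 1 1 (fun e => hsq 1 e.symm),
        hMM 2 2 (fun e => hsq 2 e.symm)]
      norm_num
    have hdet : (M * M).det = 1 := by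
      rw [Matrix.det_mul]
      exact det_sq (hG.orth M hM)
    have hne1 : M * M ≠ 1 := by
      intro h
      rw [h] at htr
      simp at htr
    have := hD.max _ (hG.mul _ hM _ hM) hdet hne1
    rw [htr] at this
    norm_num at this
  obtain ⟨M1, hM1, a1, a2⟩ := hirr (pt6 0) (hne 0)
  obtain ⟨σ, hσ⟩ := hax M1 hM1
  have hmove : ∀ M ∈ G, ∀ σ, Ax M σ → ∀ i : Fin 3, M *ᵥ pt6 ⟨i.1, by omega⟩ ≠ pt6 ⟨i.1, by omega⟩ →
      M *ᵥ pt6 ⟨i.1, by omega⟩ ≠ -pt6 ⟨i.1, by omega⟩ → σ i ≠ i := by
    intro M hM σ hσ i c1 c2 h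
    have o := orth_col (hG.orth M hM) i i
    rw [if_pos rfl] at o
    rw [hcol] at c1 c2
    have hz : ∀ j, j ≠ i → M j i = 0 := fun j hj => hσ i j (by rw [h]; exact hj)
    fin_cases i
    · have z1 : M 1 0 = 0 := hz 1 (by decide)
      have z2 : M 2 0 = 0 := hz 2 (by decide)
      simp [z1, z2] at o
      have h2 : (M 0 0 - 1) * (M 0 0 + 1) = 0 := by linear_combination o
      rcases mul_eq_zero.mp h2 with h | h
      · apply c1
        apply ext3 <;> simp [pt6, z1, z2]; linarith
      · apply c2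
        apply ext3 <;> simp [pt6, z1, z2]; linarith
    · have z1 : M 0 1 = 0 := hz 0 (by decide)
      have z2 : M 2 1 = 0 := hz 2 (by decide)
      simp [z1, z2] at o
      have h2 : (M 1 1 - 1) * (M 1 1 + 1) = 0 := by linear_combination o
      rcases mul_eq_zero.mp h2 with h | h
      · apply c1
        apply ext3 <;> simp [pt6, z1, z2]; linarith
      · apply c2
        apply ext3 <;> simp [pt6, z1, z2]; linarith
    · have z1 : M 0 2 = 0 := hz 0 (by decide)
      have z2 : M 1 2 = 0 := hz 1 (by decide)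
      simp [z1, z2] at o
      have h2 : (M 2 2 - 1) * (M 2 2 + 1) = 0 := by linear_combination o
      rcases mul_eq_zero.mp h2 with h | h
      · apply c1
        apply ext3 <;> simp [pt6, z1, z2]; linarith
      · apply c2
        apply ext3 <;> simp [pt6, z1, z2]; linarith
  have s1 : σ 0 ≠ 0 := hmove M1 hM1 σ hσ 0 a1 a2
  have d1 := hσ.dif (hG.orth M1 hM1)
  have n1 := hno M1 hM1 σ hσ
  obtain ⟨f, hf⟩ : ∃ f, σ f = f := by
    rw [vec_eta σ] at n1
    have := perm_fix _ _ _ d1 n1
    rwa [← vec_eta σ] at this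
  obtain ⟨M2, hM2, b1, b2⟩ := hirr (pt6 ⟨f.1, by omega⟩) (hne _)
  obtain ⟨τ, hτ⟩ := hax M2 hM2
  have s2 : τ f ≠ f := hmove M2 hM2 τ hτ f b1 b2
  have d2 := hτ.dif (hG.orth M2 hM2)
  have n2 := hno M2 hM2 τ hτ
  have n3 := hno (M1 * M2) (hG.mul _ hM1 _ hM2) _ (hσ.mul hτ)
  have := perm_check _ _ _ d1 s1 f (by rw [← vec_eta σ]; exact hf) _ _ _ d2
    (by rw [← vec_eta τ]; exact s2)
  rw [← vec_eta σ, ← vec_eta τ, n2, n3] at this
  simp at this

end Pool.Agent.H70.FT
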