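import Pool.Agent.H70.FT.Rodr
import Pool.Agent.H70.FT.Alg

/-!
The poles of the rotations of smallest angle in a finite group of orthogonal matrices.
-/

namespace Pool.Agent.H70.FT

open Matrix Pool.Agent.H38.FT

theorem sum3_zero {p q r : ℝ} (h : p ^ 2 + q ^ 2 + r ^ 2 = 0) : p = 0 ∧ q = 0 ∧ r = 0 := by
  have hp := sq_nonneg p
  have hq := sq_nonneg q
  have hr := sq_nonneg r
  refine ⟨?_, ?_, ?_⟩ <;> apply pow_eq_zero_iff (two_ne_zero) |>.mp <;> linarith

theorem dt_le_one {a b : Fin 3 → ℝ} (ha : dt a a = 1) (hb : dt b b = 1) : dt a b ≤ 1 := by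
  simp only [dt] at *
  nlinarith [sq_nonneg (a 0 - b 0), sq_nonneg (a 1 - b 1), sq_nonneg (a 2 - b 2)]

theorem dt_eq_one {a b : Fin 3 → ℝ} (ha : dt a a = 1) (hb : dt b b = 1) (h : dt a b = 1) :
    b = a := by
  simp only [dt] at *
  have h1 : (a 0 - b 0) ^ 2 + (a 1 - b 1) ^ 2 + (a 2 - b 2) ^ 2 = 0 := by
    linear_combination ha + hb - 2 * h
  obtain ⟨h0, h1, h2⟩ := sum3_zero h1
  exact ext3 (by linarith) (by linarith) (by linarith)

theorem dt_lt_one {a b : Fin 3 → ℝ} (ha : dt a a = 1) (hb : dt b b = 1) (h : b ≠ a) :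
    dt a b < 1 :=
  lt_of_le_of_ne (dt_le_one ha hb) (fun e => h (dt_eq_one ha hb e))

theorem dt_gt {a b : Fin 3 → ℝ} (ha : dt a a = 1) (hb : dt b b = 1) (h : b ≠ -a) :
    -1 < dt a b := by
  have h1 : dt (-b) (-b) = 1 := by rw [dt_neg_left, dt_neg_right, hb]; ring
  have h2 : -b ≠ a := fun e => h (by rw [← e, neg_neg])
  have := dt_lt_one ha h1 h2
  rw [dt_neg_right] at this
  linarith

/-- There is a rotation different from the identity. -/
theorem exists_rot {G : Set Mat} (hG : IsFinGroup G)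
    (hirr : ∀ a : Fin 3 → ℝ, a ≠ 0 → ∃ A ∈ G, A *ᵥ a ≠ a ∧ A *ᵥ a ≠ -a) :
    ∃ R ∈ G, R.det = 1 ∧ R ≠ 1 := by
  by_contra hcon
  push_neg at hcon
  have he : (![1, 0, 0] : Fin 3 → ℝ) ≠ 0 := by
    intro h
    have := congrFun h 0
    simp at this
  obtain ⟨A, hA, h1, h2⟩ := hirr _ he
  have hAA : A * A = 1 := by
    apply hcon _ (hG.mul A hA A hA)
    rw [Matrix.det_mul]
    exact det_sq (hG.orth A hA)
  have hdA : A.det ≠ 1 := by
    intro h
    have := hcon A hA h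
    rw [this] at h1
    exact h1 (Matrix.one_mulVec _)
  have hdet : ∀ B ∈ G, B.det = 1 ∨ B.det = -1 := fun B hB => by
    have := det_sq (hG.orth B hB)
    rwa [mul_self_eq_one_iff] at this
  have hdA' : A.det = -1 := (hdet A hA).resolve_left hdA
  have hall : ∀ B ∈ G, B = 1 ∨ B = A := by
    intro B hB
    rcases hdet B hB with h | h
    · exact Or.inl (hcon B hB h)
    · right
      have : A * B = 1 := by
        apply hcon _ (hG.mul A hA B hB)
        rw [Matrix.det_mul, h, hdA']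
        norm_num
      calc B = (A * A) * B := by rw [hAA, one_mul]
        _ = A * (A * B) := by rw [mul_assoc]
        _ = A := by rw [this, mul_one]
  set e : Fin 3 → ℝ := ![1, 0, 0] with hedef
  have hv : e + A *ᵥ e ≠ 0 := by
    intro h
    apply h2
    exact eq_neg_of_add_eq_zero_right h
  obtain ⟨B, hB, h3, -⟩ := hirr _ hv
  rcases hall B hB with h | h
  · rw [h] at h3
    exact h3 (Matrix.one_mulVec _)
  · apply h3
    rw [h, Matrix.mulVec_add, Matrix.mulVec_mulVec, hAA, Matrix.one_mulVec, add_comm]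

/-- The data of the rotations of largest trace. -/
structure Dat (G : Set Mat) (x s : ℝ) : Prop where
  hs : x ^ 2 + s ^ 2 = 1
  s0 : 0 ≤ s
  x1 : x < 1
  max : ∀ R ∈ G, R.det = 1 → R ≠ 1 → R.trace ≤ 1 + 2 * x

/-- `a` is the pole of a rotation with cosine `x` and sine `s` in `G`. -/
def Pole (G : Set Mat) (x s : ℝ) (a : Fin 3 → ℝ) : Prop := dt a a = 1 ∧ rot a x s ∈ G

theorem exists_dat {G : Set Mat} (hG : IsFinGroup G)
    (hirr : ∀ a : Fin 3 → ℝ, a ≠ 0 → ∃ A ∈ G, A *ᵥ a ≠ a ∧ A *ᵥ a ≠ -a) :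
    ∃ x s, Dat G x s ∧ ∃ a, Pole G x s a := by
  obtain ⟨R0, hR0, hd0, hn0⟩ := exists_rot hG hirr
  obtain ⟨R, ⟨hRG, hRd, hRn⟩, hmax⟩ := Set.exists_max_image
    {R : Mat | R ∈ G ∧ R.det = 1 ∧ R ≠ 1} (fun R => R.trace)
    (hG.fin.subset (fun R h => h.1)) ⟨R0, hR0, hd0, hn0⟩
  obtain ⟨a, x, s, ha, hs, hs0, hr⟩ := rodrigues (hG.orth R hRG) hRd hRn
  have hx1 : x < 1 := by
    have hle : x ≤ 1 := by nlinarith [sq_nonneg s, sq_nonneg (x + 1)]
    refine lt_of_le_of_ne hle ?_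
    intro hx
    apply hRn
    rw [hx] at hs
    have : s = 0 := by
      apply pow_eq_zero_iff (two_ne_zero) |>.mp
      linarith
    rw [hr, hx, this, rot_one]
  refine ⟨x, s, ⟨hs, hs0, hx1, ?_⟩, a, ha, hr ▸ hRG⟩
  intro Q hQ hQd hQn
  have := hmax Q ⟨hQ, hQd, hQn⟩
  rw [hr] at this
  simpa [rot_trace ha] using this

variable {G : Set Mat} {x s : ℝ} {a b : Fin 3 → ℝ}

theorem Pole.neg (hG : IsFinGroup G) (h : Pole G x s a) : Pole G x s (-a) := by
  refine ⟨by rw [dt_neg_left, dt_neg_right, h.1]; ring, ?_⟩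
  rw [rot_neg, ← rot_tr]
  exact hG.tr _ h.2

theorem Pole.map (hG : IsFinGroup G) (h : Pole G x s a) {M : Mat} (hM : M ∈ G) :
    Pole G x s (M *ᵥ a) := by
  have hMo := hG.orth M hM
  have h1 : dt (M *ᵥ a) (M *ᵥ a) = 1 := by rw [dt_mul hMo, h.1]
  have h2 : M * rot a x s * Mᵀ ∈ G := hG.mul _ (hG.mul _ hM _ h.2) _ (hG.tr _ hM)
  rw [rot_conj hMo] at h2
  rcases mul_self_eq_one_iff.mp (det_sq hMo) with hd | hd
  · rw [hd, one_mul] at h2
    exact ⟨h1, h2⟩
  · rw [hd, neg_one_mul, ← rot_tr] at h2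
    refine ⟨h1, ?_⟩
    have := hG.tr _ h2
    rwa [Matrix.transpose_transpose] at this

theorem Pole.inv (hG : IsFinGroup G) (h : Pole G x s a) : rot a x (-s) ∈ G := by
  rw [← rot_tr]
  exact hG.tr _ h.2

theorem Dat.x0 (hD : Dat G x s) : -1 ≤ x := by
  have := hD.hs
  nlinarith [sq_nonneg s, sq_nonneg (x - 1), hD.x1]

theorem pair (hG : IsFinGroup G) (hD : Dat G x s) (ha : Pole G x s a) (hb : Pole G x s b)
    (h1 : b ≠ a) (h2 : b ≠ -a) : ((1 + x) - (1 - x) * dt a b) ^ 2 ≤ 2 + 2 * x := by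
  have ht := trace_mul ha.1 hb.1 hD.hs
  have hlt := dt_lt_one ha.1 hb.1 h1
  have hgt := dt_gt ha.1 hb.1 h2
  have hx1 := hD.x1
  have hx0 := hD.x0
  have hm : rot a x s * rot b x s ∈ G := hG.mul _ ha.2 _ hb.2
  have hd : (rot a x s * rot b x s).det = 1 := by
    rw [Matrix.det_mul, rot_det ha.1 hD.hs, rot_det hb.1 hD.hs, one_mul]
  have hne : rot a x s * rot b x s ≠ 1 := by
    intro h
    rw [h] at ht
    simp at ht
    have e1 : (1 + x) - (1 - x) * dt a b < 2 := by nlinarith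
    have e2 : -2 < (1 + x) - (1 - x) * dt a b := by nlinarith
    nlinarith
  have := hD.max _ hm hd hne
  rw [ht] at this
  linarith

theorem pair' (hG : IsFinGroup G) (hD : Dat G x s) (ha : Pole G x s a) (hb : Pole G x s b)
    (h1 : b ≠ a) (h2 : b ≠ -a) : ((1 + x) + (1 - x) * dt a b) ^ 2 ≤ 2 + 2 * x := by
  have := pair hG hD ha (hb.neg hG) (fun e => h2 (by rw [← e, neg_neg]))
    (fun e => h1 (neg_injective e))
  rw [dt_neg_right] at this
  linarith

theorem pw (hD : Dat G x s) (ha : dt a a = 1) {x' s' : ℝ} (hs' : x' ^ 2 + s' ^ 2 = 1)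
    (h : rot a x' s' ∈ G) : x' = 1 ∨ x' ≤ x := by
  by_cases h1 : rot a x' s' = 1
  · left
    have := rot_trace (x := x') (s := s') ha
    rw [h1] at this
    simp at this
    linarith
  · right
    have := hD.max _ h (rot_det ha hs') h1
    rw [rot_trace ha] at this
    linarith

theorem x_cases (hG : IsFinGroup G) (hD : Dat G x s) (ha : Pole G x s a) :
    x = -1 ∨ x = -1 / 2 ∨ x = 0 ∨ (0 < x ∧ 4 * x ^ 2 + 2 * x - 1 = 0) ∨ 1 / 2 ≤ x := by
  have hs := hD.hs
  have hx1 := hD.x1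
  have hx0 := hD.x0
  have m2 : rot a x s * rot a x s ∈ G := hG.mul _ ha.2 _ ha.2
  have m3 : rot a x s * (rot a x s * rot a x s) ∈ G := hG.mul _ ha.2 _ m2
  have m4 : (rot a x s * rot a x s) * (rot a x s * rot a x s) ∈ G := hG.mul _ m2 _ m2
  have m5 : (rot a x s * rot a x s) * (rot a x s * (rot a x s * rot a x s)) ∈ G :=
    hG.mul _ m2 _ m3
  have e2 : rot a x s * rot a x s = rot a (2 * x ^ 2 - 1) (2 * x * s) := by
    rw [rot_mul _ _ ha.1]
    have h1 : x * x - s * s = 2 * x ^ 2 - 1 := by linear_combination -hs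
    have h2 : x * s + s * x = 2 * x * s := by ring
    rw [h1, h2]
  have e3 : rot a x s * (rot a x s * rot a x s) =
      rot a (4 * x ^ 3 - 3 * x) ((4 * x ^ 2 - 1) * s) := by
    rw [e2, rot_mul _ _ ha.1]
    have h1 : x * (2 * x ^ 2 - 1) - s * (2 * x * s) = 4 * x ^ 3 - 3 * x := by
      linear_combination -2 * x * hs
    have h2 : x * (2 * x * s) + s * (2 * x ^ 2 - 1) = (4 * x ^ 2 - 1) * s := by ring
    rw [h1, h2]
  have e4 : (rot a x s * rot a x s) * (rot a x s * rot a x s) =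
      rot a (8 * x ^ 4 - 8 * x ^ 2 + 1) ((8 * x ^ 3 - 4 * x) * s) := by
    rw [e2, rot_mul _ _ ha.1]
    have h1 : (2 * x ^ 2 - 1) * (2 * x ^ 2 - 1) - 2 * x * s * (2 * x * s) =
        8 * x ^ 4 - 8 * x ^ 2 + 1 := by linear_combination -4 * x ^ 2 * hs
    have h2 : (2 * x ^ 2 - 1) * (2 * x * s) + 2 * x * s * (2 * x ^ 2 - 1) =
        (8 * x ^ 3 - 4 * x) * s := by ring
    rw [h1, h2]
  have e5 : (rot a x s * rot a x s) * (rot a x s * (rot a x s * rot a x s)) =
      rot a (16 * x ^ 5 - 20 * x ^ 3 + 5 * x) ((16 * x ^ 4 - 12 * x ^ 2 + 1) * s) := by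
    rw [e3, e2, rot_mul _ _ ha.1]
    have h1 : (2 * x ^ 2 - 1) * (4 * x ^ 3 - 3 * x) - 2 * x * s * ((4 * x ^ 2 - 1) * s) =
        16 * x ^ 5 - 20 * x ^ 3 + 5 * x := by
      linear_combination -2 * x * (4 * x ^ 2 - 1) * hs
    have h2 : (2 * x ^ 2 - 1) * ((4 * x ^ 2 - 1) * s) + 2 * x * s * (4 * x ^ 3 - 3 * x) =
        (16 * x ^ 4 - 12 * x ^ 2 + 1) * s := by ring
    rw [h1, h2]
  rw [e2] at m2
  rw [e3] at m3
  rw [e4] at m4
  rw [e5] at m5
  have p2 := pw hD ha.1 (by linear_combination 4 * x ^ 2 * hs) m2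
  have p3 := pw hD ha.1 (by linear_combination (4 * x ^ 2 - 1) ^ 2 * hs) m3
  have p4 := pw hD ha.1 (by linear_combination (8 * x ^ 3 - 4 * x) ^ 2 * hs) m4
  have p5 := pw hD ha.1 (by linear_combination (16 * x ^ 4 - 12 * x ^ 2 + 1) ^ 2 * hs) m5
  clear e2 e3 e4 e5 m2 m3 m4 m5
  by_cases c0 : x = -1
  · exact Or.inl c0
  have hx0' : -1 < x := lt_of_le_of_ne hx0 (Ne.symm c0)
  have d2 : -1 / 2 ≤ x := by
    rcases p2 with h | h
    · exfalso
      have : (x - 1) * (x + 1) = 0 := by linarith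
      rcases mul_eq_zero.mp this with h | h <;> [linarith; linarith]
    · nlinarith
  by_cases c1 : x = -1 / 2
  · exact Or.inr (Or.inl c1)
  have d2' : -1 / 2 < x := lt_of_le_of_ne d2 (Ne.symm c1)
  have d3 : 0 ≤ x := by
    rcases p3 with h | h
    · exfalso
      have : (x - 1) * ((2 * x + 1) * (2 * x + 1)) = 0 := by linear_combination h
      rcases mul_eq_zero.mp this with h | h
      · linarith
      · rcases mul_eq_zero.mp h with h | h <;> linarith
    · by_contra hneg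
      push_neg at hneg
      have : 0 < -x * (1 - x) * (1 + x) := by
        apply mul_pos (mul_pos _ _) <;> linarith
      nlinarith
  by_cases c2 : x = 0
  · exact Or.inr (Or.inr (Or.inl c2))
  have d3' : 0 < x := lt_of_le_of_ne d3 (Ne.symm c2)
  have d4 : 0 ≤ 4 * x ^ 2 + 2 * x - 1 := by
    rcases p4 with h | h
    · exfalso
      have : x * (x * ((x - 1) * (x + 1))) = 0 := by linear_combination (1/8) * h
      rcases mul_eq_zero.mp this with h | h
      · exact c2 h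
      rcases mul_eq_zero.mp h with h | h
      · exact c2 h
      rcases mul_eq_zero.mp h with h | h <;> linarith
    · by_contra hneg
      push_neg at hneg
      have : 0 < (1 - x) * (2 * x + 1) * -(4 * x ^ 2 + 2 * x - 1) := by
        apply mul_pos (mul_pos _ _) <;> linarith
      nlinarith
  by_cases c3 : 4 * x ^ 2 + 2 * x - 1 = 0
  · exact Or.inr (Or.inr (Or.inr (Or.inl ⟨d3', c3⟩)))
  refine Or.inr (Or.inr (Or.inr (Or.inr ?_)))
  rcases p5 with h | h
  · exfalso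
    have : (x - 1) * ((4 * x ^ 2 + 2 * x - 1) * (4 * x ^ 2 + 2 * x - 1)) = 0 := by
      linear_combination h
    rcases mul_eq_zero.mp this with h | h
    · linarith
    · rcases mul_eq_zero.mp h with h | h <;> exact c3 h
  · by_contra hneg
    push_neg at hneg
    have : 0 < x * ((1 - 2 * x) * (1 + 2 * x) * ((1 - x) * (1 + x))) := by
      apply mul_pos d3' (mul_pos (mul_pos _ _) (mul_pos _ _)) <;> linarith
    nlinarith

end Pool.Agent.H70.FT
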