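import Pool.Agent.H70.FT.Rot

/-!
Every rotation matrix has an axis and an angle.
-/

namespace Pool.Agent.H70.FT

open Matrix Pool.Agent.H38.FT

theorem rodr_real (a b c d e f g h k : ℝ)
    (c00 : e * k - f * h = 1 * a) (c01 : -(d * k) + f * g = 1 * b) (c02 : d * h - e * g = 1 * c)
    (c10 : -(b * k) + c * h = 1 * d) (c11 : a * k - c * g = 1 * e) (c12 : -(a * h) + b * g = 1 * f)
    (c20 : b * f - c * e = 1 * g) (c21 : -(a * f) + c * d = 1 * h) (c22 : a * e - b * d = 1 * k)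
    (e00 : a * a + d * d + g * g = 1) (e01 : a * b + d * e + g * h = 0)
    (e02 : a * c + d * f + g * k = 0) (e11 : b * b + e * e + h * h = 1)
    (e12 : b * c + e * f + h * k = 0) (e22 : c * c + f * f + k * k = 1)
    (f00 : a * a + b * b + c * c = 1) (f01 : a * d + b * e + c * f = 0)
    (f02 : a * g + b * h + c * k = 0) (f11 : d * d + e * e + f * f = 1)
    (f12 : d * g + e * h + f * k = 0) (f22 : g * g + h * h + k * k = 1)
    (w0 w1 w2 x : ℝ) (hw0 : w0 = (h - f) / 2) (hw1 : w1 = (c - g) / 2) (hw2 : w2 = (d - b) / 2)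
    (hx : x = (a + e + k - 1) / 2) :
    w0 ^ 2 + w1 ^ 2 + w2 ^ 2 = 1 - x ^ 2 ∧ (1 + x) * (a - x) = w0 * w0 ∧
    (1 + x) * (e - x) = w1 * w1 ∧ (1 + x) * (k - x) = w2 * w2 ∧
    (1 + x) * ((b + d) / 2) = w0 * w1 ∧ (1 + x) * ((c + g) / 2) = w0 * w2 ∧
    (1 + x) * ((f + h) / 2) = w1 * w2 := by
  subst hw0 hw1 hw2 hx
  refine ⟨?_, ?_, ?_, ?_, ?_, ?_, ?_⟩
  · linear_combination (1/4) * (e00 + e11 + e22) + (1/2) * (c00 + c11 + c22)
  · linear_combination (1/4) * (e00) - (1/4) * f11 - (1/4) * f22 - (1/2) * c00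
  · linear_combination (1/4) * (e11) - (1/4) * f00 - (1/4) * f22 - (1/2) * c11
  · linear_combination (1/4) * (e22) - (1/4) * f00 - (1/4) * f11 - (1/2) * c22
  · linear_combination (1/4) * (e01 + f01) - (1/4) * (c01 + c10)
  · linear_combination (1/4) * (e02 + f02) - (1/4) * (c02 + c20)
  · linear_combination (1/4) * (e12 + f12) - (1/4) * (c12 + c21)

theorem sq_sum_pos {a b c : ℝ} (h : ¬ (a = 0 ∧ b = 0 ∧ c = 0)) : 0 < a ^ 2 + b ^ 2 + c ^ 2 := by
  by_contra hcon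
  have ha := sq_nonneg a
  have hb := sq_nonneg b
  have hc := sq_nonneg c
  have h1 : a ^ 2 = 0 := by linarith
  have h2 : b ^ 2 = 0 := by linarith
  have h3 : c ^ 2 = 0 := by linarith
  exact h ⟨pow_eq_zero_iff (two_ne_zero) |>.mp h1, pow_eq_zero_iff (two_ne_zero) |>.mp h2,
    pow_eq_zero_iff (two_ne_zero) |>.mp h3⟩

theorem key_real {x s : ℝ} (hx1 : 1 + x ≠ 0) (hs0 : s ≠ 0) (hss : s ^ 2 = (1 - x) * (1 + x))
    (u v : ℝ) : (1 - x) * (u / s) * (v / s) = u * v / (1 + x) := by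
  rw [eq_div_iff hx1]
  have : (1 - x) * (u / s) * (v / s) * (1 + x) = u * v * ((1 - x) * (1 + x)) / s ^ 2 := by
    field_simp
  rw [this, ← hss]
  field_simp

theorem sym_real (a b c p q r : ℝ) (e00 : a * a + p * p + q * q = 1)
    (e11 : p * p + b * b + r * r = 1) (e22 : q * q + r * r + c * c = 1)
    (c00 : b * c - r * r = a) (c11 : a * c - q * q = b) (c22 : a * b - p * p = c) :
    (a = 1 ∧ b = 1 ∧ c = 1 ∧ p = 0 ∧ q = 0 ∧ r = 0) ∨
    (a + b + c = -1 ∧ p * p = (1 + a) * (1 + b) ∧ q * q = (1 + a) * (1 + c) ∧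
      r * r = (1 + b) * (1 + c) ∧ (-1 ≤ a ∧ -1 ≤ b ∧ -1 ≤ c)) := by
  have hsq : (a + b + c - 3) * (a + b + c + 1) = 0 := by
    linear_combination e00 + e11 + e22 + 2 * (c00 + c11 + c22)
  rcases mul_eq_zero.mp hsq with h5 | h5
  · left
    have a0 : a ≤ 1 := by nlinarith [mul_self_nonneg p, mul_self_nonneg q]
    have a1 : b ≤ 1 := by nlinarith [mul_self_nonneg p, mul_self_nonneg r]
    have a2 : c ≤ 1 := by nlinarith [mul_self_nonneg q, mul_self_nonneg r]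
    have b0 : a = 1 := by linarith
    have b1 : b = 1 := by linarith
    have b2 : c = 1 := by linarith
    subst b0 b1 b2
    refine ⟨rfl, rfl, rfl, ?_, ?_, ?_⟩
    · exact mul_self_eq_zero.mp (by linarith)
    · exact mul_self_eq_zero.mp (by linarith)
    · exact mul_self_eq_zero.mp (by linarith)
  · right
    refine ⟨by linarith, ?_, ?_, ?_, ?_, ?_, ?_⟩
    · have t : c = -1 - a - b := by linarith
      rw [t] at c22
      linear_combination -c22
    · have t : b = -1 - a - c := by linarith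
      rw [t] at c11
      linear_combination -c11
    · have t : a = -1 - b - c := by linarith
      rw [t] at c00
      linear_combination -c00
    · nlinarith [mul_self_nonneg p, mul_self_nonneg q]
    · nlinarith [mul_self_nonneg p, mul_self_nonneg r]
    · nlinarith [mul_self_nonneg q, mul_self_nonneg r]

theorem rodr_col {R : Mat} (htr : R 0 0 + R 1 1 + R 2 2 = -1) (u : Fin 3 → ℝ) (p : ℝ) (hp : 0 < p)
    (h : ∀ j k, u j * u k = p * (R j k + if j = k then 1 else 0)) :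
    ∃ a : Fin 3 → ℝ, dt a a = 1 ∧ R = rot a (-1) 0 := by
  set q := Real.sqrt (2 * p) with hq
  have hq2 : q ^ 2 = 2 * p := Real.sq_sqrt (by linarith)
  have hqpos : 0 < q := Real.sqrt_pos.mpr (by linarith)
  have hq0 : q ≠ 0 := hqpos.ne'
  have key : ∀ j k, (1 - -1 : ℝ) * (u j / q) * (u k / q) = R j k + if j = k then 1 else 0 := by
    intro j k
    have e1 : (1 - -1 : ℝ) * (u j / q) * (u k / q) = 2 * (u j * u k) / q ^ 2 := by
      field_simp
      ring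
    rw [e1, h j k, hq2]
    field_simp
  refine ⟨fun j => u j / q, ?_, ?_⟩
  · have k0 := key 0 0
    have k1 := key 1 1
    have k2 := key 2 2
    simp only [if_true] at k0 k1 k2
    simp only [dt]
    linear_combination (1/2) * (k0 + k1 + k2) + (1/2) * htr
  · ext i j
    have k := key i j
    fin_cases i <;> fin_cases j <;> simp [rot] at k ⊢ <;> linarith

theorem rodr_sym {R : Mat} (hR : Rᵀ * R = 1) (hd : R.det = 1)
    (h0 : R 2 1 = R 1 2) (h1 : R 0 2 = R 2 0) (h2 : R 1 0 = R 0 1) (hne : R ≠ 1) :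
    ∃ a : Fin 3 → ℝ, dt a a = 1 ∧ R = rot a (-1) 0 := by
  obtain ⟨c00, c01, c02, c10, c11, c12, c20, c21, c22⟩ := cof_all hR
  rw [hd] at c00 c01 c02 c10 c11 c12 c20 c21 c22
  have e00 := orth_col hR 0 0
  have e11 := orth_col hR 1 1
  have e22 := orth_col hR 2 2
  simp at e00 e11 e22
  rw [h2] at e00 c01 c02 c22 c21
  rw [h0] at c00 c02 c10 c12 e11
  rw [← h1] at e00 c01 c02 c11 c12 c20
  rcases sym_real (R 0 0) (R 1 1) (R 2 2) (R 0 1) (R 0 2) (R 1 2) e00 e11 e22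
    (by rw [c00, one_mul]) (by rw [c11, one_mul]) (by rw [c22, one_mul]) with
    ⟨b0, b1, b2, z01, z02, z12⟩ | ⟨htr, m01, m02, m12, l0, l1, l2⟩
  · exfalso
    apply hne
    ext i j
    fin_cases i <;> fin_cases j <;> simp [b0, b1, b2, z01, z02, z12, h2, h0, ← h1]
  have n0 : R 0 1 * R 0 2 = (1 + R 0 0) * R 1 2 := by linear_combination c12
  have n1 : R 0 1 * R 1 2 = (1 + R 1 1) * R 0 2 := by linear_combination c20
  have n2 : R 0 2 * R 1 2 = (1 + R 2 2) * R 0 1 := by linear_combination c01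
  rcases lt_or_eq_of_le l0 with g0 | g0
  · refine rodr_col htr ![1 + R 0 0, R 0 1, R 0 2] (1 + R 0 0) (by linarith) ?_
    intro j k
    fin_cases j <;> fin_cases k
    · show (1 + R 0 0) * (1 + R 0 0) = (1 + R 0 0) * (R 0 0 + 1); ring
    · show (1 + R 0 0) * R 0 1 = (1 + R 0 0) * (R 0 1 + 0); ring
    · show (1 + R 0 0) * R 0 2 = (1 + R 0 0) * (R 0 2 + 0); ring
    · show R 0 1 * (1 + R 0 0) = (1 + R 0 0) * (R 1 0 + 0); rw [h2]; ring
    · show R 0 1 * R 0 1 = (1 + R 0 0) * (R 1 1 + 1); rw [m01]; ring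
    · show R 0 1 * R 0 2 = (1 + R 0 0) * (R 1 2 + 0); rw [n0]; ring
    · show R 0 2 * (1 + R 0 0) = (1 + R 0 0) * (R 2 0 + 0); rw [← h1]; ring
    · show R 0 2 * R 0 1 = (1 + R 0 0) * (R 2 1 + 0); rw [h0, mul_comm, n0]; ring
    · show R 0 2 * R 0 2 = (1 + R 0 0) * (R 2 2 + 1); rw [m02]; ring
  rcases lt_or_eq_of_le l1 with g1 | g1
  · refine rodr_col htr ![R 0 1, 1 + R 1 1, R 1 2] (1 + R 1 1) (by linarith) ?_
    intro j k
    fin_cases j <;> fin_cases k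
    · show R 0 1 * R 0 1 = (1 + R 1 1) * (R 0 0 + 1); rw [m01]; ring
    · show R 0 1 * (1 + R 1 1) = (1 + R 1 1) * (R 0 1 + 0); ring
    · show R 0 1 * R 1 2 = (1 + R 1 1) * (R 0 2 + 0); rw [n1]; ring
    · show (1 + R 1 1) * R 0 1 = (1 + R 1 1) * (R 1 0 + 0); rw [h2]; ring
    · show (1 + R 1 1) * (1 + R 1 1) = (1 + R 1 1) * (R 1 1 + 1); ring
    · show (1 + R 1 1) * R 1 2 = (1 + R 1 1) * (R 1 2 + 0); ring
    · show R 1 2 * R 0 1 = (1 + R 1 1) * (R 2 0 + 0); rw [← h1, mul_comm, n1]; ring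
    · show R 1 2 * (1 + R 1 1) = (1 + R 1 1) * (R 2 1 + 0); rw [h0]; ring
    · show R 1 2 * R 1 2 = (1 + R 1 1) * (R 2 2 + 1); rw [m12]; ring
  rcases lt_or_eq_of_le l2 with g2 | g2
  · refine rodr_col htr ![R 0 2, R 1 2, 1 + R 2 2] (1 + R 2 2) (by linarith) ?_
    intro j k
    fin_cases j <;> fin_cases k
    · show R 0 2 * R 0 2 = (1 + R 2 2) * (R 0 0 + 1); rw [m02]; ring
    · show R 0 2 * R 1 2 = (1 + R 2 2) * (R 0 1 + 0); rw [n2]; ring
    · show R 0 2 * (1 + R 2 2) = (1 + R 2 2) * (R 0 2 + 0); ring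
    · show R 1 2 * R 0 2 = (1 + R 2 2) * (R 1 0 + 0); rw [h2, mul_comm, n2]; ring
    · show R 1 2 * R 1 2 = (1 + R 2 2) * (R 1 1 + 1); rw [m12]; ring
    · show R 1 2 * (1 + R 2 2) = (1 + R 2 2) * (R 1 2 + 0); ring
    · show (1 + R 2 2) * R 0 2 = (1 + R 2 2) * (R 2 0 + 0); rw [← h1]; ring
    · show (1 + R 2 2) * R 1 2 = (1 + R 2 2) * (R 2 1 + 0); rw [h0]; ring
    · show (1 + R 2 2) * (1 + R 2 2) = (1 + R 2 2) * (R 2 2 + 1); ring
  · exfalso
    linarith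

theorem rodrigues {R : Mat} (hR : Rᵀ * R = 1) (hd : R.det = 1) (hne : R ≠ 1) :
    ∃ (a : Fin 3 → ℝ) (x s : ℝ), dt a a = 1 ∧ x ^ 2 + s ^ 2 = 1 ∧ 0 ≤ s ∧ R = rot a x s := by
  obtain ⟨c00, c01, c02, c10, c11, c12, c20, c21, c22⟩ := cof_all hR
  rw [hd] at c00 c01 c02 c10 c11 c12 c20 c21 c22
  have e00 := orth_col hR 0 0
  have e01 := orth_col hR 0 1
  have e02 := orth_col hR 0 2
  have e11 := orth_col hR 1 1
  have e12 := orth_col hR 1 2
  have e22 := orth_col hR 2 2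
  have f00 := orth_row hR 0 0
  have f01 := orth_row hR 0 1
  have f02 := orth_row hR 0 2
  have f11 := orth_row hR 1 1
  have f12 := orth_row hR 1 2
  have f22 := orth_row hR 2 2
  simp at e00 e01 e02 e11 e12 e22 f00 f01 f02 f11 f12 f22
  by_cases hw : R 2 1 = R 1 2 ∧ R 0 2 = R 2 0 ∧ R 1 0 = R 0 1
  · obtain ⟨a, ha, hr⟩ := rodr_sym hR hd hw.1 hw.2.1 hw.2.2 hne
    exact ⟨a, -1, 0, ha, by norm_num, le_refl _, hr⟩
  · obtain ⟨hxs, s00, s11, s22, s01, s02, s12⟩ := rodr_real _ _ _ _ _ _ _ _ _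
      c00 c01 c02 c10 c11 c12 c20 c21 c22 e00 e01 e02 e11 e12 e22 f00 f01 f02 f11 f12 f22
      _ _ _ _ rfl rfl rfl rfl
    obtain ⟨w0, hw0⟩ : ∃ w0, w0 = (R 2 1 - R 1 2) / 2 := ⟨_, rfl⟩
    obtain ⟨w1, hw1⟩ : ∃ w1, w1 = (R 0 2 - R 2 0) / 2 := ⟨_, rfl⟩
    obtain ⟨w2, hw2⟩ : ∃ w2, w2 = (R 1 0 - R 0 1) / 2 := ⟨_, rfl⟩
    obtain ⟨x, hx⟩ : ∃ x, x = (R 0 0 + R 1 1 + R 2 2 - 1) / 2 := ⟨_, rfl⟩
    rw [← hw0, ← hw1, ← hw2, ← hx] at hxs
    rw [← hx, ← hw0] at s00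
    rw [← hx, ← hw1] at s11
    rw [← hx, ← hw2] at s22
    rw [← hx, ← hw0, ← hw1] at s01
    rw [← hx, ← hw0, ← hw2] at s02
    rw [← hx, ← hw1, ← hw2] at s12
    have hpos : 0 < w0 ^ 2 + w1 ^ 2 + w2 ^ 2 := by
      apply sq_sum_pos
      rintro ⟨hz0, hz1, hz2⟩
      exact hw ⟨by linarith only [hz0, hw0], by linarith only [hz1, hw1],
        by linarith only [hz2, hw2]⟩
    obtain ⟨s, hs⟩ : ∃ s, s = Real.sqrt (w0 ^ 2 + w1 ^ 2 + w2 ^ 2) := ⟨_, rfl⟩
    have hs2 : s ^ 2 = w0 ^ 2 + w1 ^ 2 + w2 ^ 2 := by rw [hs]; exact Real.sq_sqrt hpos.le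
    have hspos : 0 < s := by rw [hs]; exact Real.sqrt_pos.mpr hpos
    have hx1 : 1 + x ≠ 0 := by
      intro h
      have : x = -1 := by linarith
      rw [this] at hxs
      linarith only [hxs, hpos]
    have hs0 : s ≠ 0 := hspos.ne'
    have hss : s ^ 2 = (1 - x) * (1 + x) := by rw [hs2, hxs]; ring
    have key := key_real hx1 hs0 hss
    have keys : ∀ u : ℝ, s * (u / s) = u := fun u => by field_simp
    have d00 : w0 * w0 / (1 + x) = R 0 0 - x := by rw [← s00]; field_simp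
    have d11 : w1 * w1 / (1 + x) = R 1 1 - x := by rw [← s11]; field_simp
    have d22 : w2 * w2 / (1 + x) = R 2 2 - x := by rw [← s22]; field_simp
    have d01 : w0 * w1 / (1 + x) = (R 0 1 + R 1 0) / 2 := by rw [← s01]; field_simp
    have d02 : w0 * w2 / (1 + x) = (R 0 2 + R 2 0) / 2 := by rw [← s02]; field_simp
    have d12 : w1 * w2 / (1 + x) = (R 1 2 + R 2 1) / 2 := by rw [← s12]; field_simp
    refine ⟨![w0 / s, w1 / s, w2 / s], x, s, ?_, ?_, hspos.le, ?_⟩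
    · simp only [dt]
      simp
      field_simp
      linarith only [hs2]
    · rw [hs2, hxs]; ring
    · ext i j
      fin_cases i <;> fin_cases j
      · show R 0 0 = x + (1 - x) * (w0 / s) * (w0 / s)
        rw [key, d00]; ring
      · show R 0 1 = (1 - x) * (w0 / s) * (w1 / s) - s * (w2 / s)
        rw [key, keys, d01, hw2]; ring
      · show R 0 2 = (1 - x) * (w0 / s) * (w2 / s) + s * (w1 / s)
        rw [key, keys, d02, hw1]; ring
      · show R 1 0 = (1 - x) * (w1 / s) * (w0 / s) + s * (w2 / s)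
        rw [key, keys, mul_comm w1 w0, d01, hw2]; ring
      · show R 1 1 = x + (1 - x) * (w1 / s) * (w1 / s)
        rw [key, d11]; ring
      · show R 1 2 = (1 - x) * (w1 / s) * (w2 / s) - s * (w0 / s)
        rw [key, keys, d12, hw0]; ring
      · show R 2 0 = (1 - x) * (w2 / s) * (w0 / s) - s * (w1 / s)
        rw [key, keys, mul_comm w2 w0, d02, hw1]; ring
      · show R 2 1 = (1 - x) * (w2 / s) * (w1 / s) + s * (w0 / s)
        rw [key, keys, mul_comm w2 w1, d12, hw0]; ring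
      · show R 2 2 = x + (1 - x) * (w2 / s) * (w2 / s)
        rw [key, d22]; ring

end Pool.Agent.H70.FT
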