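import Pool.Agent.H38.FT.GroupDefs

/-!
Rotations of Euclidean 3-space as matrices: the axis and angle form, conjugation, the trace of a
product.
-/

namespace Pool.Agent.H70.FT

open Matrix Pool.Agent.H38.FT

/-- The inner product of two vectors. -/
def dt (a b : Fin 3 → ℝ) : ℝ := a 0 * b 0 + a 1 * b 1 + a 2 * b 2

/-- The rotation about `a` with cosine `x` and sine `s`. -/
def rot (a : Fin 3 → ℝ) (x s : ℝ) : Mat :=
  !![x + (1 - x) * a 0 * a 0, (1 - x) * a 0 * a 1 - s * a 2, (1 - x) * a 0 * a 2 + s * a 1;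
     (1 - x) * a 1 * a 0 + s * a 2, x + (1 - x) * a 1 * a 1, (1 - x) * a 1 * a 2 - s * a 0;
     (1 - x) * a 2 * a 0 - s * a 1, (1 - x) * a 2 * a 1 + s * a 0, x + (1 - x) * a 2 * a 2]

theorem dt_comm (a b : Fin 3 → ℝ) : dt a b = dt b a := by unfold dt; ring

theorem dt_neg_left (a b : Fin 3 → ℝ) : dt (-a) b = - dt a b := by
  simp only [dt, Pi.neg_apply]; ring

theorem dt_neg_right (a b : Fin 3 → ℝ) : dt a (-b) = - dt a b := by
  simp only [dt, Pi.neg_apply]; ring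

theorem mv0 (M : Mat) (v : Fin 3 → ℝ) (i : Fin 3) :
    (M *ᵥ v) i = M i 0 * v 0 + M i 1 * v 1 + M i 2 * v 2 := by
  simp [Matrix.mulVec, dotProduct, Fin.sum_univ_three]

theorem mm0 (M N : Mat) (i j : Fin 3) :
    (M * N) i j = M i 0 * N 0 j + M i 1 * N 1 j + M i 2 * N 2 j := by
  simp [Matrix.mul_apply, Fin.sum_univ_three]

/-- entries of the product of the transpose with the matrix -/
theorem orth_col {M : Mat} (h : Mᵀ * M = 1) (i j : Fin 3) :
    M 0 i * M 0 j + M 1 i * M 1 j + M 2 i * M 2 j = if i = j then 1 else 0 := by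
  have := congrFun (congrFun h i) j
  rw [mm0] at this
  simpa [Matrix.transpose_apply, Matrix.one_apply] using this

theorem orth_row {M : Mat} (h : Mᵀ * M = 1) (i j : Fin 3) :
    M i 0 * M j 0 + M i 1 * M j 1 + M i 2 * M j 2 = if i = j then 1 else 0 := by
  have h' : M * Mᵀ = 1 := mul_eq_one_comm.mp h
  have := congrFun (congrFun h' i) j
  rw [mm0] at this
  simpa [Matrix.transpose_apply, Matrix.one_apply] using this

/-- an orthogonal map preserves the inner product -/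
theorem dt_mul {M : Mat} (h : Mᵀ * M = 1) (a b : Fin 3 → ℝ) : dt (M *ᵥ a) (M *ᵥ b) = dt a b := by
  have e00 := orth_col h 0 0
  have e01 := orth_col h 0 1
  have e02 := orth_col h 0 2
  have e11 := orth_col h 1 1
  have e12 := orth_col h 1 2
  have e22 := orth_col h 2 2
  simp at e00 e01 e02 e11 e12 e22
  simp only [dt, mv0]
  linear_combination a 0 * b 0 * e00 + (a 0 * b 1 + a 1 * b 0) * e01 + (a 0 * b 2 + a 2 * b 0) * e02 + a 1 * b 1 * e11 + (a 1 * b 2 + a 2 * b 1) * e12 + a 2 * b 2 * e22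

theorem cof {M : Mat} (h : Mᵀ * M = 1) : M.adjugate = M.det • Mᵀ := by
  have h1 : M * Mᵀ = 1 := mul_eq_one_comm.mp h
  calc M.adjugate = M.adjugate * (M * Mᵀ) := by rw [h1, mul_one]
    _ = (M.adjugate * M) * Mᵀ := by rw [mul_assoc]
    _ = M.det • Mᵀ := by rw [Matrix.adjugate_mul, Matrix.smul_mul, one_mul]

theorem det_sq {M : Mat} (h : Mᵀ * M = 1) : M.det * M.det = 1 := by
  have := congrArg Matrix.det h
  rwa [Matrix.det_mul, Matrix.det_transpose, Matrix.det_one] at this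

theorem cof_all {M : Mat} (h : Mᵀ * M = 1) :
    M 1 1 * M 2 2 - M 1 2 * M 2 1 = M.det * M 0 0 ∧
    -(M 1 0 * M 2 2) + M 1 2 * M 2 0 = M.det * M 0 1 ∧
    M 1 0 * M 2 1 - M 1 1 * M 2 0 = M.det * M 0 2 ∧
    -(M 0 1 * M 2 2) + M 0 2 * M 2 1 = M.det * M 1 0 ∧
    M 0 0 * M 2 2 - M 0 2 * M 2 0 = M.det * M 1 1 ∧
    -(M 0 0 * M 2 1) + M 0 1 * M 2 0 = M.det * M 1 2 ∧
    M 0 1 * M 1 2 - M 0 2 * M 1 1 = M.det * M 2 0 ∧
    -(M 0 0 * M 1 2) + M 0 2 * M 1 0 = M.det * M 2 1 ∧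
    M 0 0 * M 1 1 - M 0 1 * M 1 0 = M.det * M 2 2 := by
  have hc := cof h
  rw [Matrix.adjugate_fin_three] at hc
  have e : ∀ i j : Fin 3, _ := fun i j => congrFun (congrFun hc i) j
  have e00 := e 0 0
  have e01 := e 0 1
  have e02 := e 0 2
  have e10 := e 1 0
  have e11 := e 1 1
  have e12 := e 1 2
  have e20 := e 2 0
  have e21 := e 2 1
  have e22 := e 2 2
  simp [Matrix.smul_apply, Matrix.transpose_apply] at e00 e01 e02 e10 e11 e12 e20 e21 e22
  refine ⟨?_, ?_, ?_, ?_, ?_, ?_, ?_, ?_, ?_⟩ <;> linarith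

end Pool.Agent.H70.FT
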