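import Pool.Agent.H70.FT.Oct

/-!
The case where the rotations of smallest angle have order three.
-/

namespace Pool.Agent.H70.FT

open Matrix Pool.Agent.H38.FT

variable {G : Set Mat} {s k : ℝ}

/-- A cube diagonal. -/
def dg (k e f g : ℝ) : Fin 3 → ℝ := ![k * e, k * f, k * g]

theorem dg0 (k e f g : ℝ) : dg k e f g 0 = k * e := rfl
theorem dg1 (k e f g : ℝ) : dg k e f g 1 = k * f := rfl
theorem dg2 (k e f g : ℝ) : dg k e f g 2 = k * g := rfl

theorem rot_dg (hk : 3 * k ^ 2 = 1) (hks : s * k = 1 / 2) (e f g : ℝ) :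
    rot (dg k e f g) (-1 / 2) s =
      !![-1 / 2 + 1 / 2 * e * e, 1 / 2 * e * f - 1 / 2 * g, 1 / 2 * e * g + 1 / 2 * f;
        1 / 2 * f * e + 1 / 2 * g, -1 / 2 + 1 / 2 * f * f, 1 / 2 * f * g - 1 / 2 * e;
        1 / 2 * g * e - 1 / 2 * f, 1 / 2 * g * f + 1 / 2 * e, -1 / 2 + 1 / 2 * g * g] := by
  apply ext9 <;> simp only [rot00, rot01, rot02, rot10, rot11, rot12, rot20, rot21, rot22, dg0,
    dg1, dg2] <;> simp
  · linear_combination (1 / 2 * e * e) * hk
  · linear_combination (1 / 2 * e * f) * hk - g * hks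
  · linear_combination (1 / 2 * e * g) * hk + f * hks
  · linear_combination (1 / 2 * e * f) * hk + g * hks
  · linear_combination (1 / 2 * f * f) * hk
  · linear_combination (1 / 2 * g * f) * hk - e * hks
  · linear_combination (1 / 2 * e * g) * hk - f * hks
  · linear_combination (1 / 2 * g * f) * hk + e * hks
  · linear_combination (1 / 2 * g * g) * hk

theorem unit_int {v : Fin 3 → ℝ} (hv : dt v v = 1) (h : ∀ i, v i = 0 ∨ v i = 1 ∨ v i = -1) :
    ∃ j, v = pt6 j := by
  have h0 := h 0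
  have h1 := h 1
  have h2 := h 2
  simp only [dt] at hv
  have key : ∀ j : Fin 6, v 0 = pt6 j 0 → v 1 = pt6 j 1 → v 2 = pt6 j 2 → ∃ j, v = pt6 j :=
    fun j a b c => ⟨j, ext3 a b c⟩
  rcases h0 with h0 | h0 | h0 <;> rcases h1 with h1 | h1 | h1 <;> rcases h2 with h2 | h2 | h2 <;>
    rw [h0, h1, h2] at hv <;> norm_num at hv
  · exact key 2 (by rw [h0]; rfl) (by rw [h1]; rfl) (by rw [h2]; rfl)
  · exact key 5 (by rw [h0]; rfl) (by rw [h1]; rfl) (by rw [h2]; rfl)
  · exact key 1 (by rw [h0]; rfl) (by rw [h1]; rfl) (by rw [h2]; rfl)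
  · exact key 4 (by rw [h0]; rfl) (by rw [h1]; rfl) (by rw [h2]; rfl)
  · exact key 0 (by rw [h0]; rfl) (by rw [h1]; rfl) (by rw [h2]; rfl)
  · exact key 3 (by rw [h0]; rfl) (by rw [h1]; rfl) (by rw [h2]; rfl)

theorem case_half (hG : IsFinGroup G) (hD : Dat G (-1 / 2) s) (hk : 3 * k ^ 2 = 1)
    (hks : s * k = 1 / 2) (h0 : Pole G (-1 / 2) s (dg k 1 1 1))
    (h1 : Pole G (-1 / 2) s (dg k 1 (-1) (-1))) : ∃ t : Tag, ∀ M : Mat, M ∈ G ↔ M ∈ t.group := by
  have hk0 : k ≠ 0 := by
    intro h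
    rw [h] at hk
    norm_num at hk
  have hsq : ∀ v w, Pole G (-1 / 2) s v → Pole G (-1 / 2) s w → w ≠ v → w ≠ -v →
      dt v w ^ 2 = 1 / 9 := by
    intro v w hv hw c1 c2
    rcases le_total 0 (dt v w) with h | h
    · rw [ang_half hG hD hv hw c1 c2 h]; norm_num
    · have := ang_half hG hD hv (hw.neg hG) (fun e => c2 (by rw [← e, neg_neg]))
        (fun e => c1 (neg_injective e)) (by rw [dt_neg_right]; linarith)
      rw [dt_neg_right] at this
      have : dt v w = -(1 / 3) := by linarith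
      rw [this]; norm_num
  have r0 : rot (dg k 1 1 1) (-1 / 2) s = gen .c := by
    rw [rot_dg hk hks]
    apply ext9 <;> simp [gen] <;> norm_num
  have r1 : rot (dg k 1 (-1) (-1)) (-1 / 2) s = !![0, 0, -1; -1, 0, 0; 0, 1, 0] := by
    rw [rot_dg hk hks]
    apply ext9 <;> simp <;> norm_num
  have hc : gen .c ∈ G := by rw [← r0]; exact h0.2
  have hct : (gen .c)ᵀ ∈ G := hG.tr _ hc
  have hd : gen .d ∈ G := by
    have : gen .d = (gen .c)ᵀ * (((gen .c)ᵀ * rot (dg k 1 (-1) (-1)) (-1 / 2) s) * gen .c) := by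
      rw [r1]
      apply ext9 <;> simp [mm0, gen, Matrix.transpose_apply]
    rw [this]
    exact hG.mul _ hct _ (hG.mul _ (hG.mul _ hct _ h1.2) _ hc)
  have cmul : ∀ e f g, gen .c *ᵥ dg k e f g = dg k g e f := by
    intro e f g
    apply ext3 <;> simp [mv0, gen, dg0, dg1, dg2]
  have h2 : Pole G (-1 / 2) s (dg k (-1) 1 (-1)) := by
    rw [← cmul]; exact h1.map hG hc
  have h3 : Pole G (-1 / 2) s (dg k (-1) (-1) 1) := by
    rw [← cmul]; exact h2.map hG hc
  have hpole : ∀ v, Pole G (-1 / 2) s v → ∀ i, v i = k ∨ v i = -k := by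
    intro v hv
    by_contra hcon
    have hn : ∀ e f g : ℝ, (e = 1 ∨ e = -1) → (f = 1 ∨ f = -1) → (g = 1 ∨ g = -1) →
        v ≠ dg k e f g := by
      intro e f g he hf hg h
      apply hcon
      intro i
      rw [h]
      fin_cases i
      · rcases he with rfl | rfl <;> simp [dg]
      · rcases hf with rfl | rfl <;> simp [dg]
      · rcases hg with rfl | rfl <;> simp [dg]
    have hneg : ∀ e f g : ℝ, -dg k e f g = dg k (-e) (-f) (-g) := by
      intro e f g
      apply ext3 <;> simp [dg]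
    have a0 := hsq _ _ h0 hv (hn 1 1 1 (by norm_num) (by norm_num) (by norm_num))
      (by rw [hneg]; exact hn _ _ _ (by norm_num) (by norm_num) (by norm_num))
    have a1 := hsq _ _ h1 hv (hn 1 (-1) (-1) (by norm_num) (by norm_num) (by norm_num))
      (by rw [hneg]; exact hn _ _ _ (by norm_num) (by norm_num) (by norm_num))
    have a2 := hsq _ _ h2 hv (hn (-1) 1 (-1) (by norm_num) (by norm_num) (by norm_num))
      (by rw [hneg]; exact hn _ _ _ (by norm_num) (by norm_num) (by norm_num))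
    have a3 := hsq _ _ h3 hv (hn (-1) (-1) 1 (by norm_num) (by norm_num) (by norm_num))
      (by rw [hneg]; exact hn _ _ _ (by norm_num) (by norm_num) (by norm_num))
    have hv1 := hv.1
    simp only [dt, dg0, dg1, dg2] at a0 a1 a2 a3 hv1
    have : 4 * k ^ 2 * (v 0 * v 0 + v 1 * v 1 + v 2 * v 2) = 4 / 9 := by
      linear_combination a0 + a1 + a2 + a3
    rw [hv1] at this
    linarith
  have col : ∀ M ∈ G, ∀ e f g : ℝ, Pole G (-1 / 2) s (dg k e f g) → ∀ v : Fin 3 → ℝ,
      dt v v = 1 → (∀ i, dg k 1 1 1 i + dg k e f g i = 2 * k * v i) → ∃ j, M *ᵥ v = pt6 j := by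
    intro M hM e f g hp v hv hsum
    have hvec : (2 * k) • v = dg k 1 1 1 + dg k e f g := by
      ext i
      simp only [Pi.smul_apply, Pi.add_apply, smul_eq_mul]
      rw [hsum i]
    have hM1 : (2 * k) • (M *ᵥ v) = M *ᵥ dg k 1 1 1 + M *ᵥ dg k e f g := by
      rw [← Matrix.mulVec_smul, hvec, Matrix.mulVec_add]
    apply unit_int
    · rw [dt_mul (hG.orth M hM), hv]
    · intro i
      have h5 := congrFun hM1 i
      simp only [Pi.smul_apply, Pi.add_apply, smul_eq_mul] at h5
      have b0 := hpole _ (h0.map hG hM) i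
      have b1 := hpole _ (hp.map hG hM) i
      rcases b0 with b0 | b0 <;> rcases b1 with b1 | b1 <;> rw [b0, b1] at h5
      · right; left
        have : (2 * k) * ((M *ᵥ v) i - 1) = 0 := by linarith
        rcases mul_eq_zero.mp this with h | h
        · exact absurd (by linarith : k = 0) hk0
        · linarith
      · left
        have : (2 * k) * (M *ᵥ v) i = 0 := by linarith
        rcases mul_eq_zero.mp this with h | h
        · exact absurd (by linarith : k = 0) hk0
        · exact h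
      · left
        have : (2 * k) * (M *ᵥ v) i = 0 := by linarith
        rcases mul_eq_zero.mp this with h | h
        · exact absurd (by linarith : k = 0) hk0
        · exact h
      · right; right
        have : (2 * k) * ((M *ᵥ v) i + 1) = 0 := by linarith
        rcases mul_eq_zero.mp this with h | h
        · exact absurd (by linarith : k = 0) hk0
        · linarith
  refine cube_group hG hc hd ?_
  intro M hM
  refine ⟨?_, ?_, ?_⟩
  · refine col M hM _ _ _ h1 (pt6 0) (dt_pt6 0) ?_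
    intro i
    fin_cases i <;> simp [dg, pt6]; ring
  · refine col M hM _ _ _ h2 (pt6 1) (dt_pt6 1) ?_
    intro i
    fin_cases i <;> simp [dg, pt6]; ring
  · refine col M hM _ _ _ h3 (pt6 2) (dt_pt6 2) ?_
    intro i
    fin_cases i <;> simp [dg, pt6]; ring

end Pool.Agent.H70.FT
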