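import Pool.Agent.H70.FT.Alg

/-!
Words in the generators acting on a finite set of points.
-/

namespace Pool.Agent.H70.FT

open Matrix Pool.Agent.H38.FT

/-- The action of a word, given the action of the letters. -/
def actw {n : ℕ} (act : Letter → Fin n → Fin n) (w : List Letter) (i : Fin n) : Fin n :=
  w.foldr act i

theorem ev_nil : ev [] = 1 := rfl

theorem ev_cons (l : Letter) (w : List Letter) : ev (l :: w) = gen l * ev w := by
  simp [ev]

theorem ev_append (w w' : List Letter) : ev (w ++ w') = ev w * ev w' := by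
  simp [ev]

theorem ev_act {n : ℕ} (pt : Fin n → Fin 3 → ℝ) (act : Letter → Fin n → Fin n) (P : Letter → Prop)
    (h : ∀ l, P l → ∀ i, gen l *ᵥ pt i = pt (act l i)) (w : List Letter) (hw : ∀ l ∈ w, P l)
    (i : Fin n) : ev w *ᵥ pt i = pt (actw act w i) := by
  induction w with
  | nil => rw [ev_nil, Matrix.one_mulVec]; rfl
  | cons l w ih =>
    rw [ev_cons, ← Matrix.mulVec_mulVec, ih (fun l' hl' => hw l' (List.mem_cons_of_mem _ hl')),
      h l (hw l List.mem_cons_self)]
    rfl

/-- A matrix is determined by the images of three independent vectors. -/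
theorem det_three {M N : Mat} {u v w : Fin 3 → ℝ}
    (hd : u 0 * (v 1 * w 2 - v 2 * w 1) - u 1 * (v 0 * w 2 - v 2 * w 0) +
      u 2 * (v 0 * w 1 - v 1 * w 0) ≠ 0)
    (h1 : M *ᵥ u = N *ᵥ u) (h2 : M *ᵥ v = N *ᵥ v) (h3 : M *ᵥ w = N *ᵥ w) : M = N := by
  set B : Mat := !![u 0, v 0, w 0; u 1, v 1, w 1; u 2, v 2, w 2] with hB
  have hdet : IsUnit B.det := by
    apply isUnit_iff_ne_zero.mpr
    rw [Matrix.det_fin_three]
    intro h
    apply hd
    rw [hB] at h
    simp at h
    linarith
  have hMB : M * B = N * B := by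
    have e1 := fun i => congrFun h1 i
    have e2 := fun i => congrFun h2 i
    have e3 := fun i => congrFun h3 i
    simp only [mv0] at e1 e2 e3
    ext i j
    rw [mm0, mm0]
    fin_cases j
    · exact e1 i
    · exact e2 i
    · exact e3 i
  calc M = M * (B * B⁻¹) := by rw [Matrix.mul_nonsing_inv _ hdet, mul_one]
    _ = (M * B) * B⁻¹ := by rw [mul_assoc]
    _ = (N * B) * B⁻¹ := by rw [hMB]
    _ = N * (B * B⁻¹) := by rw [mul_assoc]
    _ = N := by rw [Matrix.mul_nonsing_inv _ hdet, mul_one]

theorem mem_ev {t : Tag} {w : List Letter} (hw : ∀ l ∈ w, l ∈ t.letters) : ev w ∈ t.group := by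
  induction w with
  | nil => exact t.group.one_mem
  | cons l w ih =>
    rw [ev_cons]
    exact t.group.mul_mem (Submonoid.subset_closure ⟨l, hw l List.mem_cons_self, rfl⟩)
      (ih (fun l' hl' => hw l' (List.mem_cons_of_mem _ hl')))

/-- The words of the letters of a group are in the group. -/
theorem ev_mem {G : Set Mat} (hG : IsFinGroup G) {w : List Letter} (hw : ∀ l ∈ w, gen l ∈ G) :
    ev w ∈ G := by
  induction w with
  | nil => exact hG.one
  | cons l w ih =>
    rw [ev_cons]
    exact hG.mul _ (hw l List.mem_cons_self) _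
      (ih (fun l' hl' => hw l' (List.mem_cons_of_mem _ hl')))

/-- The group as a submonoid. -/
def toSub {G : Set Mat} (hG : IsFinGroup G) : Submonoid Mat where
  carrier := G
  mul_mem' := fun {a b} ha hb => hG.mul a ha b hb
  one_mem' := hG.one

theorem group_le {G : Set Mat} (hG : IsFinGroup G) {t : Tag} (h : ∀ l ∈ t.letters, gen l ∈ G)
    {M : Mat} (hM : M ∈ t.group) : M ∈ G := by
  have : t.group ≤ toSub hG := by
    apply Submonoid.closure_le.mpr
    rintro A ⟨l, hl, rfl⟩
    exact h l hl
  exact this hM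

theorem ev_inv {G : Set Mat} (hG : IsFinGroup G) {w l : List Letter} (hw : ∀ l ∈ w, gen l ∈ G)
    (h : ev (w ++ l) ∈ G) : ev l ∈ G := by
  rw [ev_append] at h
  have h1 := ev_mem hG hw
  have h2 := hG.orth _ h1
  have : (ev w)ᵀ * (ev w * ev l) = ev l := by rw [← mul_assoc, h2, one_mul]
  rw [← this]
  exact hG.mul _ (hG.tr _ h1) _ h

theorem ev_single (l : Letter) : ev [l] = gen l := by simp [ev]

end Pool.Agent.H70.FT
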